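import Mathlib

/-!
# A covering lemma for finite systems of residue classes

If a finite system of residue classes has moduli with at most `T` divisors, then there is a family of
coarser classes `b mod d` containing all of them whose total measure is at most `T ^ 2` times the density
of the union of the system.  The family is found by a greedy choice of weights and a second moment bound.
-/

namespace Pool.Agent.E25

open Finset

set_option linter.unusedSectionVars false
variable {ι : Type*} [DecidableEq ι]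

/-- The greedy choice of weights. -/
lemma greedy (S : Finset ι) (r t : ι → ℕ) (hr : ∀ i ∈ S, 0 < r i) :
    ∃ lam : ι → ℝ, (∀ i, 0 ≤ lam i) ∧
      (∀ d b : ℕ, 0 < d → ∑ i ∈ S with (d ∣ r i ∧ t i % d = b), lam i ≤ 1 / (d : ℝ)) ∧
      (∀ i ∈ S, ∃ d ∈ (r i).divisors,
        ∑ j ∈ S with (d ∣ r j ∧ t j % d = t i % d), lam j = 1 / (d : ℝ)) := by
  induction S using Finset.induction_on with
  | empty =>
    refine ⟨fun _ => 0, fun _ => le_rfl, fun d b hd => by simp, fun i hi => by simp at hi⟩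
  | insert a S ha ih =>
    obtain ⟨lam, h0, h1, h2⟩ := ih (fun i hi => hr i (mem_insert_of_mem hi))
    have hra : 0 < r a := hr a (mem_insert_self _ _)
    have hne : (r a).divisors.Nonempty := ⟨1, by simp [hra.ne']⟩
    obtain ⟨d0, hd0, hmin⟩ := exists_min_image (r a).divisors
      (fun d => 1 / (d : ℝ) - ∑ j ∈ S with (d ∣ r j ∧ t j % d = t a % d), lam j) hne
    set m : ℝ := 1 / (d0 : ℝ) - ∑ j ∈ S with (d0 ∣ r j ∧ t j % d0 = t a % d0), lam j with hm
    have hm0 : 0 ≤ m := by
      have := h1 d0 (t a % d0) (Nat.pos_of_mem_divisors hd0)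
      linarith
    set lam' : ι → ℝ := fun i => if i = a then m else lam i with hlam'
    have hS : ∀ (P : ι → Prop) [DecidablePred P], ∑ i ∈ S with P i, lam' i = ∑ i ∈ S with P i, lam i := by
      intro P _
      refine sum_congr rfl fun i hi => ?_
      have : i ≠ a := by
        rintro rfl
        exact ha (mem_of_mem_filter _ hi)
      simp [hlam', this]
    have hins : ∀ (P : ι → Prop) [DecidablePred P], ∑ i ∈ insert a S with P i, lam' i
        = (if P a then m else 0) + ∑ i ∈ S with P i, lam i := by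
      intro P _
      rw [filter_insert]
      split_ifs with hP
      · rw [sum_insert (by simp [ha]), hS]
        simp [hlam']
      · rw [hS]; simp
    refine ⟨lam', ?_, ?_, ?_⟩
    · intro i
      simp only [hlam']
      split_ifs
      · exact hm0
      · exact h0 i
    · intro d b hd
      rw [hins]
      split_ifs with hP
      · obtain ⟨hP1, hP2⟩ := hP
        subst hP2
        have := hmin d (by simp [hP1, hra.ne'])
        linarith
      · have := h1 d b hd
        linarith
    · intro i hi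
      rcases mem_insert.mp hi with rfl | hi
      · refine ⟨d0, hd0, ?_⟩
        rw [hins, if_pos ⟨Nat.dvd_of_mem_divisors hd0, rfl⟩]
        linarith
      · obtain ⟨d, hd, hd2⟩ := h2 i hi
        refine ⟨d, hd, ?_⟩
        rw [hins]
        split_ifs with hP
        · obtain ⟨hP1, hP2⟩ := hP
          have := hmin d (by simp [hP1, hra.ne'])
          rw [hP2] at this
          linarith
        · linarith


lemma card_class (R r : ℕ) (hr : 0 < r) (h : r ∣ R) (t : ℕ) :
    (#{y ∈ range R | y % r = t % r} : ℝ) = (R : ℝ) / r := by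
  have h1 := Nat.count_modEq_card R hr t
  rw [Nat.count_eq_card_filter_range] at h1
  have h2 : R % r = 0 := Nat.mod_eq_zero_of_dvd h
  rw [h2] at h1
  simp only [Nat.not_lt_zero, if_false, add_zero] at h1
  have h3 : #{y ∈ range R | y % r = t % r} = R / r := h1
  rw [h3, Nat.cast_div h (by exact_mod_cast hr.ne')]

lemma card_class_pair (R r s : ℕ) (hr : 0 < r) (hs : 0 < s) (h1 : r ∣ R) (h2 : s ∣ R) (t u : ℕ) :
    (r : ℝ) * s * (#{y ∈ range R | y % r = t % r ∧ y % s = u % s} : ℝ)
      ≤ if t % (r.gcd s) = u % (r.gcd s) then (R : ℝ) * (r.gcd s : ℕ) else 0 := by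
  by_cases hne : ({y ∈ range R | y % r = t % r ∧ y % s = u % s} : Finset ℕ).Nonempty
  · obtain ⟨y0, hy0⟩ := hne
    simp only [mem_filter, mem_range] at hy0
    obtain ⟨_, hy1, hy2⟩ := hy0
    have hc : t % (r.gcd s) = u % (r.gcd s) := by
      have e1 : y0 ≡ t [MOD r.gcd s] := Nat.ModEq.of_dvd (Nat.gcd_dvd_left r s) hy1
      have e2 : y0 ≡ u [MOD r.gcd s] := Nat.ModEq.of_dvd (Nat.gcd_dvd_right r s) hy2
      exact e1.symm.trans e2
    rw [if_pos hc]
    have hl : 0 < r.lcm s := Nat.lcm_pos hr hs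
    have hsub : ({y ∈ range R | y % r = t % r ∧ y % s = u % s} : Finset ℕ)
        ⊆ {y ∈ range R | y % (r.lcm s) = y0 % (r.lcm s)} := by
      intro y hy
      simp only [mem_filter] at hy ⊢
      refine ⟨hy.1, ?_⟩
      have e1 : y ≡ y0 [MOD r] := hy.2.1.trans hy1.symm
      have e2 : y ≡ y0 [MOD s] := hy.2.2.trans hy2.symm
      exact Nat.mod_lcm e1 e2
    have hcard : (#{y ∈ range R | y % r = t % r ∧ y % s = u % s} : ℝ) ≤ (R : ℝ) / (r.lcm s : ℕ) := by
      rw [← card_class R (r.lcm s) hl (Nat.lcm_dvd h1 h2) y0]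
      exact_mod_cast card_le_card hsub
    have hgl : (r : ℝ) * s = (r.gcd s : ℕ) * (r.lcm s : ℕ) := by
      exact_mod_cast (Nat.gcd_mul_lcm r s).symm
    have hl' : (0 : ℝ) < (r.lcm s : ℕ) := by exact_mod_cast hl
    calc (r : ℝ) * s * (#{y ∈ range R | y % r = t % r ∧ y % s = u % s} : ℝ)
        ≤ (r : ℝ) * s * ((R : ℝ) / (r.lcm s : ℕ)) := by gcongr
      _ = (R : ℝ) * (r.gcd s : ℕ) := by
        rw [hgl]; field_simp
  · rw [not_nonempty_iff_eq_empty] at hne
    rw [hne]
    simp only [card_empty, Nat.cast_zero, mul_zero]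
    split_ifs <;> positivity

/-- Second moment bound: the total weight is at most `T` times the density of the union. -/
lemma weight_le (S : Finset ι) (r t : ι → ℕ) (T : ℕ) (hr : ∀ i ∈ S, 0 < r i)
    (hT : ∀ i ∈ S, #(r i).divisors ≤ T) (R : ℕ) (hR : 0 < R) (hdvd : ∀ i ∈ S, r i ∣ R)
    (lam : ι → ℝ) (h0 : ∀ i, 0 ≤ lam i)
    (h1 : ∀ d b : ℕ, 0 < d → ∑ i ∈ S with (d ∣ r i ∧ t i % d = b), lam i ≤ 1 / (d : ℝ)) :
    ∑ i ∈ S, lam i ≤ T * ((#{y ∈ range R | ∃ i ∈ S, y % r i = t i % r i} : ℝ) / R) := by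
  classical
  set W : ℝ := ∑ i ∈ S, lam i with hW
  have hW0 : 0 ≤ W := sum_nonneg fun i _ => h0 i
  set U : Finset ℕ := {y ∈ range R | ∃ i ∈ S, y % r i = t i % r i} with hU
  have hR' : (0 : ℝ) < R := by exact_mod_cast hR
  set Z : ℕ → ℝ := fun y => ∑ i ∈ S, lam i * r i * (if y % r i = t i % r i then 1 else 0) with hZ
  -- first moment
  have hm1 : ∑ y ∈ range R, Z y = R * W := by
    simp only [hZ]
    rw [sum_comm, hW, mul_sum]
    refine sum_congr rfl fun i hi => ?_
    rw [← mul_sum, sum_boole, card_class R (r i) (hr i hi) (hdvd i hi)]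
    have : (r i : ℝ) ≠ 0 := by exact_mod_cast (hr i hi).ne'
    field_simp
  -- Z vanishes off U
  have hZU : ∑ y ∈ range R, Z y = ∑ y ∈ U, Z y := by
    symm
    refine sum_subset (filter_subset _ _) fun y hy hy2 => ?_
    simp only [hZ]
    refine sum_eq_zero fun i hi => ?_
    have : ¬ (y % r i = t i % r i) := by
      intro h
      exact hy2 (mem_filter.mpr ⟨hy, i, hi, h⟩)
    simp [this]
  -- second moment
  have hm2 : ∑ y ∈ range R, (Z y) ^ 2 ≤ R * T * W := by
    have e1 : ∑ y ∈ range R, (Z y) ^ 2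
        = ∑ i ∈ S, ∑ j ∈ S, lam i * lam j *
          ((r i : ℝ) * r j * (#{y ∈ range R | y % r i = t i % r i ∧ y % r j = t j % r j} : ℝ)) := by
      simp only [hZ, sq, sum_mul_sum]
      rw [sum_comm]
      refine sum_congr rfl fun i hi => ?_
      rw [sum_comm]
      refine sum_congr rfl fun j hj => ?_
      rw [← sum_boole, mul_sum, mul_sum]
      refine sum_congr rfl fun y hy => ?_
      by_cases ha : y % r i = t i % r i <;> by_cases hb : y % r j = t j % r j <;> simp [ha, hb]
      ring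
    rw [e1]
    have e2 : ∀ i ∈ S, ∑ j ∈ S, lam i * lam j *
          ((r i : ℝ) * r j * (#{y ∈ range R | y % r i = t i % r i ∧ y % r j = t j % r j} : ℝ))
          ≤ lam i * (R * T) := by
      intro i hi
      have e3 : ∀ j ∈ S, lam i * lam j *
          ((r i : ℝ) * r j * (#{y ∈ range R | y % r i = t i % r i ∧ y % r j = t j % r j} : ℝ))
          ≤ ∑ d ∈ (r i).divisors, lam i * R * (d * (if d ∣ r j ∧ t j % d = t i % d then lam j else 0)) := by
        intro j hj
        have hp := card_class_pair R (r i) (r j) (hr i hi) (hr j hj) (hdvd i hi) (hdvd j hj) (t i) (t j)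
        have hg : (r i).gcd (r j) ∈ (r i).divisors := by
          simp [Nat.gcd_dvd_left, (hr i hi).ne']
        have hnn : ∀ d ∈ (r i).divisors,
            0 ≤ lam i * R * (d * (if d ∣ r j ∧ t j % d = t i % d then lam j else 0)) := by
          intro d _
          have h0i := h0 i
          have h0j := h0 j
          split_ifs <;> positivity
        refine le_trans ?_ (single_le_sum hnn hg)
        have h0i := h0 i
        have h0j := h0 j
        refine le_trans (mul_le_mul_of_nonneg_left hp (mul_nonneg h0i h0j)) ?_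
        split_ifs with hc hd hd
        · apply le_of_eq; ring
        · exact absurd ⟨Nat.gcd_dvd_right _ _, hc.symm⟩ hd
        · simp only [mul_zero]; positivity
        · simp
      refine le_trans (sum_le_sum e3) ?_
      rw [sum_comm]
      have e4 : ∀ d ∈ (r i).divisors,
          ∑ j ∈ S, lam i * R * (d * (if d ∣ r j ∧ t j % d = t i % d then lam j else 0)) ≤ lam i * R := by
        intro d hd
        have hd0 : 0 < d := Nat.pos_of_mem_divisors hd
        have hd' : (0 : ℝ) < d := by exact_mod_cast hd0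
        rw [← mul_sum, ← mul_sum, ← sum_filter]
        have h5 := h1 d (t i % d) hd0
        have h6 : (d : ℝ) * ∑ j ∈ S with (d ∣ r j ∧ t j % d = t i % d), lam j ≤ 1 := by
          calc (d : ℝ) * ∑ j ∈ S with (d ∣ r j ∧ t j % d = t i % d), lam j ≤ d * (1 / d) := by gcongr
            _ = 1 := by field_simp
        have h0i := h0 i
        calc lam i * R * ((d : ℝ) * ∑ j ∈ S with (d ∣ r j ∧ t j % d = t i % d), lam j)
            ≤ lam i * R * 1 := by gcongr
          _ = lam i * R := by ring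
      refine le_trans (sum_le_sum e4) ?_
      rw [sum_const, nsmul_eq_mul]
      have h7 : ((#(r i).divisors : ℕ) : ℝ) ≤ T := by exact_mod_cast hT i hi
      have h0i := h0 i
      calc ((#(r i).divisors : ℕ) : ℝ) * (lam i * R) ≤ T * (lam i * R) := by gcongr
        _ = lam i * (R * T) := by ring
    refine le_trans (sum_le_sum e2) ?_
    rw [← sum_mul]
    apply le_of_eq
    rw [hW]; ring
  -- Cauchy-Schwarz
  have hcs : (∑ y ∈ U, Z y) ^ 2 ≤ #U * ∑ y ∈ U, (Z y) ^ 2 := by
    have := sq_sum_le_card_mul_sum_sq (s := U) (f := Z)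
    exact this
  have hsub : ∑ y ∈ U, (Z y) ^ 2 ≤ ∑ y ∈ range R, (Z y) ^ 2 :=
    sum_le_sum_of_subset_of_nonneg (filter_subset _ _) fun _ _ _ => sq_nonneg _
  have hfin : (R * W) ^ 2 ≤ #U * (R * T * W) := by
    rw [← hm1, hZU]
    refine hcs.trans ?_
    have : (0 : ℝ) ≤ #U := by positivity
    exact mul_le_mul_of_nonneg_left (hsub.trans hm2) this
  rcases hW0.eq_or_lt with h | h
  · rw [← h]; positivity
  · have h8 : R * W * (R * W) ≤ (T * #U) * (R * W) := by nlinarith
    have h9 : R * W ≤ T * #U := le_of_mul_le_mul_right h8 (by positivity)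
    rw [mul_div_assoc', le_div_iff₀ hR']
    linarith

/-- The covering lemma. -/
theorem cover (S : Finset ι) (r t : ι → ℕ) (T : ℕ) (hr : ∀ i ∈ S, 0 < r i)
    (hT : ∀ i ∈ S, #(r i).divisors ≤ T) (R : ℕ) (hR : 0 < R) (hdvd : ∀ i ∈ S, r i ∣ R) :
    ∃ G : Finset (ℕ × ℕ), (∀ g ∈ G, ∃ i ∈ S, g.1 ∣ r i ∧ g.2 = t i % g.1) ∧
      (∀ i ∈ S, ∃ g ∈ G, g.1 ∣ r i ∧ t i % g.1 = g.2) ∧
      ∑ g ∈ G, (1 : ℝ) / g.1
        ≤ (T : ℝ) ^ 2 * ((#{y ∈ range R | ∃ i ∈ S, y % r i = t i % r i} : ℝ) / R) := by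
  classical
  obtain ⟨lam, h0, h1, h2⟩ := greedy S r t hr
  have hw := weight_le S r t T hr hT R hR hdvd lam h0 h1
  choose! d hd hd2 using h2
  set G : Finset (ℕ × ℕ) := S.image fun i => (d i, t i % d i) with hG
  have hmem : ∀ g ∈ G, ∃ i ∈ S, g.1 ∣ r i ∧ g.2 = t i % g.1 := by
    intro g hg
    obtain ⟨i, hi, rfl⟩ := mem_image.mp hg
    exact ⟨i, hi, Nat.dvd_of_mem_divisors (hd i hi), rfl⟩
  refine ⟨G, hmem, ?_, ?_⟩
  · intro i hi
    exact ⟨(d i, t i % d i), mem_image_of_mem _ hi, Nat.dvd_of_mem_divisors (hd i hi), rfl⟩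
  · have htight : ∀ g ∈ G, (1 : ℝ) / g.1 = ∑ j ∈ S with (g.1 ∣ r j ∧ t j % g.1 = g.2), lam j := by
      intro g hg
      obtain ⟨i, hi, rfl⟩ := mem_image.mp hg
      exact (hd2 i hi).symm
    rw [sum_congr rfl htight]
    have e1 : ∑ g ∈ G, ∑ j ∈ S with (g.1 ∣ r j ∧ t j % g.1 = g.2), lam j
        = ∑ j ∈ S, ∑ g ∈ G with (g.1 ∣ r j ∧ t j % g.1 = g.2), lam j := by
      simp only [sum_filter]
      rw [sum_comm]
    rw [e1]
    have e2 : ∀ j ∈ S, ∑ g ∈ G with (g.1 ∣ r j ∧ t j % g.1 = g.2), lam j ≤ T * lam j := by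
      intro j hj
      rw [sum_const, nsmul_eq_mul]
      have hcard : #{g ∈ G | g.1 ∣ r j ∧ t j % g.1 = g.2} ≤ T := by
        refine le_trans ?_ (hT j hj)
        refine card_le_card_of_injOn (fun g => g.1) ?_ ?_
        · intro g hg
          have hg' := mem_filter.mp (mem_coe.mp hg)
          simp [hg'.2.1, (hr j hj).ne']
        · intro g hg g' hg' hgg
          have h3 := mem_filter.mp (mem_coe.mp hg)
          have h4 := mem_filter.mp (mem_coe.mp hg')
          have hgg' : g.1 = g'.1 := hgg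
          refine Prod.ext hgg' ?_
          rw [← h3.2.2, ← h4.2.2, hgg']
      have : ((#{g ∈ G | g.1 ∣ r j ∧ t j % g.1 = g.2} : ℕ) : ℝ) ≤ T := by exact_mod_cast hcard
      exact mul_le_mul_of_nonneg_right this (h0 j)
    refine le_trans (sum_le_sum e2) ?_
    rw [← mul_sum]
    calc (T : ℝ) * ∑ i ∈ S, lam i
        ≤ T * (T * ((#{y ∈ range R | ∃ i ∈ S, y % r i = t i % r i} : ℝ) / R)) := by gcongr
      _ = _ := by ring

end Pool.Agent.E25
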