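import Mathlib

/-!
# Densities of finite unions of residue classes
-/

namespace Pool.Agent.E25

open Finset Filter Topology

/-- `m` lies in one of the classes `b i mod n i` with `i ∈ S`. -/
def Hit (n b : ℕ → ℕ) (S : Finset ℕ) (m : ℕ) : Prop := ∃ i ∈ S, m % n i = b i % n i

instance (n b : ℕ → ℕ) (S : Finset ℕ) : DecidablePred (Hit n b S) := fun m => by
  unfold Hit; infer_instance

variable {n b : ℕ → ℕ}

lemma hit_mono {S S' : Finset ℕ} (h : S ⊆ S') {m : ℕ} (hm : Hit n b S m) : Hit n b S' m := by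
  obtain ⟨i, hi, h2⟩ := hm
  exact ⟨i, h hi, h2⟩

lemma hit_congr {S : Finset ℕ} {N : ℕ} (hN : ∀ i ∈ S, n i ∣ N) {m m' : ℕ} (h : m % N = m' % N) :
    Hit n b S m ↔ Hit n b S m' := by
  unfold Hit
  refine exists_congr fun i => and_congr_right fun hi => ?_
  have : m % n i = m' % n i := Nat.ModEq.of_dvd (hN i hi) h
  rw [this]

lemma hit_periodic {S : Finset ℕ} {N : ℕ} (hN : ∀ i ∈ S, n i ∣ N) :
    Function.Periodic (fun m => Hit n b S m) N := by
  intro m
  simp only [eq_iff_iff]
  exact hit_congr hN (by simp)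

/-- Counting over a multiple of a period. -/
lemma count_mul {p : ℕ → Prop} [DecidablePred p] {N : ℕ} (hp : Function.Periodic p N) (k : ℕ) :
    #{y ∈ range (N * k) | p y} = k * #{y ∈ range N | p y} := by
  induction k with
  | zero => simp
  | succ k ih =>
    have h1 : range (N * (k + 1)) = range (N * k) ∪ Ico (N * k) (N * k + N) := by
      ext y; simp only [mem_range, mem_union, mem_Ico]; rw [mul_add, mul_one]; omega
    have h2 : Disjoint (range (N * k)) (Ico (N * k) (N * k + N)) := by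
      rw [Finset.disjoint_left]; intro y hy hy'; simp only [mem_range, mem_Ico] at hy hy'; omega
    rw [h1, filter_union, card_union_of_disjoint (disjoint_filter_filter h2), ih,
      Nat.filter_Ico_card_eq_of_periodic _ _ _ hp, Nat.count_eq_card_filter_range]
    ring

/-- Two periods give the same density. -/
lemma count_period {p : ℕ → Prop} [DecidablePred p] {N N' : ℕ} (hp : Function.Periodic p N)
    (hp' : Function.Periodic p N') :
    N' * #{y ∈ range N | p y} = N * #{y ∈ range N' | p y} := by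
  rw [← count_mul hp N', ← count_mul hp' N, mul_comm]

/-- The density of the union of the classes in `S`. -/
noncomputable def dens (n b : ℕ → ℕ) (S : Finset ℕ) : ℝ :=
  (#{y ∈ range (∏ i ∈ S, n i) | Hit n b S y} : ℝ) / ((∏ i ∈ S, n i : ℕ) : ℝ)

lemma dens_eq (hpos : ∀ i, 0 < n i) {S : Finset ℕ} {N : ℕ} (hN : ∀ i ∈ S, n i ∣ N) :
    (#{y ∈ range N | Hit n b S y} : ℝ) = N * dens n b S := by
  unfold dens
  have hP : 0 < ∏ i ∈ S, n i := prod_pos fun i _ => hpos i
  have h1 := count_period (p := Hit n b S) (hit_periodic hN)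
    (hit_periodic (fun i hi => dvd_prod_of_mem n hi))
  have h2 : (((∏ i ∈ S, n i : ℕ) : ℝ)) * (#{y ∈ range N | Hit n b S y} : ℝ)
      = N * (#{y ∈ range (∏ i ∈ S, n i) | Hit n b S y} : ℝ) := by exact_mod_cast h1
  have hP' : (0 : ℝ) < ((∏ i ∈ S, n i : ℕ) : ℝ) := by exact_mod_cast hP
  field_simp
  linarith

lemma dens_nonneg (S : Finset ℕ) : 0 ≤ dens n b S := by unfold dens; positivity

lemma dens_le_one (hpos : ∀ i, 0 < n i) (S : Finset ℕ) : dens n b S ≤ 1 := by
  unfold dens
  have hP : 0 < ∏ i ∈ S, n i := prod_pos fun i _ => hpos i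
  rw [div_le_one (by exact_mod_cast hP)]
  have := card_filter_le (range (∏ i ∈ S, n i)) (fun y => Hit n b S y)
  rw [card_range] at this
  exact_mod_cast this

lemma dens_mono (hpos : ∀ i, 0 < n i) {S S' : Finset ℕ} (h : S ⊆ S') : dens n b S ≤ dens n b S' := by
  have hP : 0 < ∏ i ∈ S', n i := prod_pos fun i _ => hpos i
  have h1 := dens_eq (b := b) hpos (fun i hi => dvd_prod_of_mem n hi) (S := S')
  have h2 := dens_eq (b := b) hpos (fun i hi => dvd_prod_of_mem n (h hi)) (S := S)
  have h3 : (#{y ∈ range (∏ i ∈ S', n i) | Hit n b S y} : ℝ)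
      ≤ (#{y ∈ range (∏ i ∈ S', n i) | Hit n b S' y} : ℝ) := by
    have : #{y ∈ range (∏ i ∈ S', n i) | Hit n b S y} ≤ #{y ∈ range (∏ i ∈ S', n i) | Hit n b S' y} := by
      refine card_le_card fun y hy => ?_
      simp only [mem_filter] at hy ⊢
      exact ⟨hy.1, hit_mono h hy.2⟩
    exact_mod_cast this
  rw [h1, h2] at h3
  have hP' : (0 : ℝ) < ((∏ i ∈ S', n i : ℕ) : ℝ) := by exact_mod_cast hP
  exact le_of_mul_le_mul_left h3 hP'

/-- The number of `m ≤ x` in a union of classes: upper bound. -/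
lemma count_le (hpos : ∀ i, 0 < n i) {S : Finset ℕ} (x : ℕ) :
    (#{m ∈ Icc 1 x | Hit n b S m} : ℝ) ≤ x * dens n b S + (∏ i ∈ S, n i : ℕ) := by
  set N := ∏ i ∈ S, n i with hN
  have hP : 0 < N := prod_pos fun i _ => hpos i
  have hP' : (0 : ℝ) < N := by exact_mod_cast hP
  have hper : Function.Periodic (Hit n b S) N := hit_periodic (fun i hi => dvd_prod_of_mem n hi)
  have h1 : (#{m ∈ Icc 1 x | Hit n b S m} : ℝ) ≤ (#{m ∈ range (N * (x / N + 1)) | Hit n b S m} : ℝ) := by
    have : #{m ∈ Icc 1 x | Hit n b S m} ≤ #{m ∈ range (N * (x / N + 1)) | Hit n b S m} := by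
      refine card_le_card (filter_subset_filter _ fun m hm => ?_)
      have h2 := Nat.lt_mul_div_succ x hP
      simp only [mem_Icc, mem_range] at hm ⊢
      omega
    exact_mod_cast this
  rw [count_mul hper] at h1
  refine h1.trans ?_
  have h3 := dens_eq (b := b) hpos (fun i hi => dvd_prod_of_mem n hi) (S := S)
  push_cast
  rw [h3]
  have h4 : ((x / N : ℕ) : ℝ) * N ≤ x := by exact_mod_cast Nat.div_mul_le_self x N
  have h5 := dens_nonneg (n := n) (b := b) S
  have h6 := dens_le_one (b := b) hpos S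
  nlinarith

/-- The number of `m ≤ x` in a union of classes: lower bound. -/
lemma le_count (hpos : ∀ i, 0 < n i) {S : Finset ℕ} (x : ℕ) :
    (x : ℝ) * dens n b S ≤ (#{m ∈ Icc 1 x | Hit n b S m} : ℝ) + (∏ i ∈ S, n i : ℕ) + 1 := by
  set N := ∏ i ∈ S, n i with hN
  have hP : 0 < N := prod_pos fun i _ => hpos i
  have hP' : (0 : ℝ) < N := by exact_mod_cast hP
  have hper : Function.Periodic (Hit n b S) N := hit_periodic (fun i hi => dvd_prod_of_mem n hi)
  have h1 : (#{m ∈ range (N * (x / N)) | Hit n b S m} : ℝ) ≤ (#{m ∈ Icc 1 x | Hit n b S m} : ℝ) + 1 := by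
    have : #{m ∈ range (N * (x / N)) | Hit n b S m} ≤ #{m ∈ Icc 1 x | Hit n b S m} + 1 := by
      calc #{m ∈ range (N * (x / N)) | Hit n b S m} ≤ #(insert 0 {m ∈ Icc 1 x | Hit n b S m}) := by
            refine card_le_card fun m hm => ?_
            have h2 := Nat.mul_div_le x N
            simp only [mem_filter, mem_range, mem_insert, mem_Icc] at hm ⊢
            rcases Nat.eq_zero_or_pos m with h | h
            · exact Or.inl h
            · exact Or.inr ⟨⟨h, by omega⟩, hm.2⟩
        _ ≤ _ := card_insert_le _ _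
    exact_mod_cast this
  rw [count_mul hper] at h1
  have h3 := dens_eq (b := b) hpos (fun i hi => dvd_prod_of_mem n hi) (S := S)
  push_cast at h1
  rw [h3] at h1
  have h4 : (x : ℝ) ≤ ((x / N : ℕ) : ℝ) * N + N := by
    have := Nat.lt_div_mul_add hP (a := x)
    exact_mod_cast this.le
  have h5 := dens_nonneg (n := n) (b := b) S
  have h6 := dens_le_one (b := b) hpos S
  nlinarith

end Pool.Agent.E25
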