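import Mathlib
import Pool.Agent.E456.Mertens

/-!
# Integers with few large prime factors: reciprocal sums
-/

namespace Pool.Agent.E25

open Finset
open scoped Classical
open Pool.Agent.E456 (S1 cpp mertens2_interval mertens2 cpp_nonneg S1_mono)

/-- Number of prime factors of `m` exceeding `Z`, counted with multiplicity. -/
def big (Z m : ℕ) : ℕ := (m.primeFactorsList.filter (fun p => Z < p)).length

lemma big_prime_mul {Z p m : ℕ} (hp : p.Prime) (hZ : Z < p) (hm : m ≠ 0) :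
    big Z (p * m) = big Z m + 1 := by
  unfold big
  have h1 := (Nat.perm_primeFactorsList_mul hp.ne_zero hm).filter (fun q => decide (Z < q))
  rw [h1.length_eq, Nat.primeFactorsList_prime hp]
  simp [hZ]

lemma exists_prime_of_big {Z m : ℕ} (h : 0 < big Z m) : ∃ p, p.Prime ∧ Z < p ∧ p ∣ m := by
  unfold big at h
  obtain ⟨p, hp⟩ := List.exists_mem_of_length_pos h
  simp only [List.mem_filter, decide_eq_true_eq] at hp
  exact ⟨p, Nat.prime_of_mem_primeFactorsList hp.1, hp.2, Nat.dvd_of_mem_primeFactorsList hp.1⟩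

/-- Reciprocal sum over `m ≤ x` with at most `k` prime factors exceeding `Z`. -/
noncomputable def A (Z k x : ℕ) : ℝ := ∑ m ∈ Icc 1 x with big Z m ≤ k, (1 : ℝ) / m

lemma A_nonneg (Z k x : ℕ) : 0 ≤ A Z k x := sum_nonneg fun _ _ => by positivity

/-- A general comparison: if each `m ∈ B` has the form `p * m'` with `(p, m') ∈ T`. -/
lemma sum_biUnion_le_sum' {α β : Type*} [DecidableEq α] [DecidableEq β] (s : Finset α) (t : α → Finset β) (f : β → ℝ)
    (hf : ∀ b, 0 ≤ f b) : ∑ b ∈ s.biUnion t, f b ≤ ∑ a ∈ s, ∑ b ∈ t a, f b := by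
  induction s using Finset.induction_on with
  | empty => simp
  | insert a s ha ih =>
    rw [biUnion_insert, sum_insert ha]
    have h1 := sum_union_inter (s₁ := t a) (s₂ := s.biUnion t) (f := f)
    have h2 : 0 ≤ ∑ b ∈ t a ∩ s.biUnion t, f b := sum_nonneg fun _ _ => hf _
    linarith

lemma sum_le_of_factor (B : Finset ℕ) (T : Finset (ℕ × ℕ))
    (h : ∀ m ∈ B, ∃ q ∈ T, q.1 * q.2 = m) :
    ∑ m ∈ B, (1 : ℝ) / m ≤ ∑ q ∈ T, (1 : ℝ) / q.1 * (1 / q.2) := by
  have hsub : B ⊆ T.image (fun q => q.1 * q.2) := by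
    intro m hm
    obtain ⟨q, hq, rfl⟩ := h m hm
    exact mem_image_of_mem _ hq
  calc ∑ m ∈ B, (1 : ℝ) / m ≤ ∑ m ∈ T.image (fun q => q.1 * q.2), (1 : ℝ) / m :=
        sum_le_sum_of_subset_of_nonneg hsub fun _ _ _ => by positivity
    _ ≤ ∑ q ∈ T, (1 : ℝ) / ((q.1 * q.2 : ℕ) : ℝ) := by
        have := Finset.sum_image_le_of_nonneg (s := T) (g := fun q : ℕ × ℕ => q.1 * q.2)
          (f := fun m : ℕ => (1 : ℝ) / m) (fun _ _ => by positivity)
        exact this
    _ = ∑ q ∈ T, (1 : ℝ) / q.1 * (1 / q.2) := by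
        refine sum_congr rfl fun q _ => ?_
        push_cast
        rw [div_mul_div_comm, one_mul]

lemma A_succ (Z k x : ℕ) : A Z (k + 1) x ≤ A Z 0 x + S1 x * A Z k x := by
  have h1 : ({m ∈ Icc 1 x | big Z m ≤ k + 1} : Finset ℕ) =
      {m ∈ Icc 1 x | big Z m ≤ 0} ∪ {m ∈ Icc 1 x | 0 < big Z m ∧ big Z m ≤ k + 1} := by
    rw [← filter_or]
    exact filter_congr fun m _ => by omega
  unfold A
  rw [h1, sum_union (disjoint_filter.mpr fun m _ h2 h3 => by omega)]
  gcongr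
  refine (sum_le_of_factor _ (((Ioc 0 x).filter Nat.Prime) ×ˢ {m ∈ Icc 1 x | big Z m ≤ k}) ?_).trans ?_
  · intro m hm
    simp only [mem_filter, mem_Icc] at hm
    obtain ⟨⟨hm1, hm2⟩, hm3, hm4⟩ := hm
    obtain ⟨p, hp, hZp, hpm⟩ := exists_prime_of_big hm3
    obtain ⟨m', rfl⟩ := hpm
    have hm'0 : m' ≠ 0 := by rintro rfl; simp at hm1
    rw [big_prime_mul hp hZp hm'0] at hm4
    refine ⟨(p, m'), ?_, rfl⟩
    have hm'1 : 1 ≤ m' := Nat.one_le_iff_ne_zero.mpr hm'0
    have hp1 : p ≤ x := le_trans (Nat.le_mul_of_pos_right p hm'1) hm2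
    have hm'2 : m' ≤ x := le_trans (Nat.le_mul_of_pos_left m' hp.pos) hm2
    simp only [mem_product, mem_filter, mem_Ioc, mem_Icc]
    exact ⟨⟨⟨hp.pos, hp1⟩, hp⟩, ⟨hm'1, hm'2⟩, by omega⟩
  · rw [sum_product]
    unfold S1
    rw [sum_mul_sum]

lemma A_le (Z k x : ℕ) : A Z k x ≤ A Z 0 x * (1 + S1 x) ^ k := by
  have hS : 0 ≤ S1 x := sum_nonneg fun _ _ => by positivity
  induction k with
  | zero => simp
  | succ k ih =>
    have h0 := A_nonneg Z 0 x
    calc A Z (k + 1) x ≤ A Z 0 x + S1 x * A Z k x := A_succ Z k x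
      _ ≤ A Z 0 x + S1 x * (A Z 0 x * (1 + S1 x) ^ k) := by gcongr
      _ ≤ A Z 0 x * (1 + S1 x) ^ k + S1 x * (A Z 0 x * (1 + S1 x) ^ k) := by
        gcongr
        exact le_mul_of_one_le_right h0 (one_le_pow₀ (by linarith))
      _ = A Z 0 x * (1 + S1 x) ^ (k + 1) := by ring

lemma inv_one_sub_le_exp {u : ℝ} (h0 : 0 ≤ u) (h1 : u ≤ 1 / 2) : (1 - u)⁻¹ ≤ Real.exp (2 * u) := by
  have h2 : 0 < 1 - u := by linarith
  have h3 : (1 - u)⁻¹ = u / (1 - u) + 1 := by field_simp; ring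
  rw [h3]
  have h4 : u / (1 - u) ≤ 2 * u := by
    rw [div_le_iff₀ h2]; nlinarith
  have h5 := Real.add_one_le_exp (2 * u)
  linarith

lemma A_zero_le (Z x : ℕ) : A Z 0 x ≤ Real.exp (2 * S1 Z) := by
  have h1 : ∀ m ∈ ({m ∈ Icc 1 x | big Z m ≤ 0} : Finset ℕ), m ∈ (Z + 1).smoothNumbers := by
    intro m hm
    simp only [mem_filter, mem_Icc] at hm
    rw [Nat.mem_smoothNumbers']
    intro p hp hpm
    by_contra hcon
    have hb : 0 < big Z m := by
      unfold big
      apply List.length_pos_of_mem (a := p)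
      simp only [List.mem_filter, decide_eq_true_eq]
      exact ⟨(Nat.mem_primeFactorsList (by omega)).mpr ⟨hp, hpm⟩, by omega⟩
    omega
  let f : ℕ →* ℝ := { toFun := fun m => (1 : ℝ) / m, map_one' := by simp, map_mul' := by
                        intro a b; push_cast; rw [div_mul_div_comm, one_mul] }
  have hf : ∀ {p : ℕ}, p.Prime → ‖f p‖ < 1 := by
    intro p hp
    have h2 : (1 : ℝ) < p := by exact_mod_cast hp.one_lt
    change ‖(1 : ℝ) / p‖ < 1
    rw [Real.norm_of_nonneg (by positivity), div_lt_one (by linarith)]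
    exact h2
  obtain ⟨hsum, hhas⟩ := EulerProduct.summable_and_hasSum_smoothNumbers_prod_primesBelow_geometric hf (Z + 1)
  have h2 : A Z 0 x ≤ ∏ p ∈ (Z + 1).primesBelow, (1 - f p)⁻¹ := by
    unfold A
    set B : Finset ℕ := {m ∈ Icc 1 x | big Z m ≤ 0} with hB
    let g : {m // m ∈ B} ↪ (Z + 1).smoothNumbers :=
      ⟨fun m => ⟨m.1, h1 m.1 m.2⟩, fun a b hab => by
        apply Subtype.ext; simpa using congrArg (fun z : (Z + 1).smoothNumbers => (z : ℕ)) hab⟩
    have h3 : ∑ m ∈ B, (1 : ℝ) / m = ∑ m ∈ B.attach.map g, f (m : ℕ) := by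
      rw [sum_map, ← sum_attach]
      rfl
    rw [h3]
    exact sum_le_hasSum _ (fun m _ => by change (0 : ℝ) ≤ 1 / ((m : ℕ) : ℝ); positivity) hhas
  refine h2.trans ?_
  have h4 : ∏ p ∈ (Z + 1).primesBelow, (1 - f p)⁻¹ ≤ ∏ p ∈ (Z + 1).primesBelow, Real.exp (2 * (1 / (p : ℝ))) := by
    refine prod_le_prod ?_ ?_
    · intro p hp
      have hp' := Nat.prime_of_mem_primesBelow hp
      have h5 : (2 : ℝ) ≤ p := by exact_mod_cast hp'.two_le
      have h6 : f p ≤ 1 / 2 := by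
        change (1 : ℝ) / p ≤ 1 / 2
        exact one_div_le_one_div_of_le (by norm_num) h5
      apply inv_nonneg.mpr
      linarith
    · intro p hp
      have hp' := Nat.prime_of_mem_primesBelow hp
      have h5 : (2 : ℝ) ≤ p := by exact_mod_cast hp'.two_le
      refine inv_one_sub_le_exp (u := 1 / (p : ℝ)) (by positivity) ?_
      exact one_div_le_one_div_of_le (by norm_num) h5
  refine h4.trans ?_
  rw [← Real.exp_sum]
  apply Real.exp_le_exp.mpr
  rw [← mul_sum]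
  have h7 : ∑ p ∈ (Z + 1).primesBelow, (1 : ℝ) / p = S1 Z := by
    unfold S1
    refine sum_congr ?_ fun _ _ => rfl
    ext p
    simp only [Nat.mem_primesBelow, mem_filter, mem_Ioc]
    constructor
    · rintro ⟨h, hp⟩; exact ⟨⟨hp.pos, by omega⟩, hp⟩
    · rintro ⟨⟨_, h⟩, hp⟩; exact ⟨by omega, hp⟩
  rw [h7]

/-- Primes in a multiplicatively short interval. -/
lemma inner_sum_le (M w N M0 : ℕ) (hM : 1 ≤ M) (hw : 2 ≤ w) (h1 : w ≤ M0) (h2 : N / M ≤ M0) :
    ∑ p ∈ (Ioc M0 N).filter Nat.Prime, (1 : ℝ) / p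
      ≤ (Real.log (2 * M) + (8 + cpp)) / Real.log w := by
  have hw' : (2 : ℝ) ≤ w := by exact_mod_cast hw
  have hlw : 0 < Real.log w := Real.log_pos (by linarith)
  have hM' : (1 : ℝ) ≤ M := by exact_mod_cast hM
  have hl2M : 0 ≤ Real.log (2 * M) := Real.log_nonneg (by linarith)
  have hcpp := cpp_nonneg
  rcases le_or_gt N M0 with h | h
  · have : (Ioc M0 N).filter Nat.Prime = ∅ := by
      rw [Ioc_eq_empty (by omega)]; simp
    rw [this, sum_empty]
    positivity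
  · have h3 := mertens2_interval M0 N (by omega) h.le
    have hM0 : (w : ℝ) ≤ M0 := by exact_mod_cast h1
    have hlM0 : Real.log w ≤ Real.log M0 := Real.log_le_log (by linarith) hM0
    have hlM0p : 0 < Real.log M0 := by linarith
    have hNM : (N : ℝ) ≤ 2 * M * M0 := by
      have h4 : N < M * (N / M + 1) := Nat.lt_mul_div_succ N (by omega)
      have h5 : M * (N / M + 1) ≤ M * (M0 + M0) := Nat.mul_le_mul_left _ (by omega)
      have h6 : N ≤ 2 * M * M0 := by
        have : M * (M0 + M0) = 2 * M * M0 := by ring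
        omega
      exact_mod_cast h6
    have hN0 : (0 : ℝ) < N := by exact_mod_cast (by omega : 0 < N)
    have hM00 : (0 : ℝ) < M0 := by linarith
    have hlN : Real.log N ≤ Real.log (2 * M) + Real.log M0 := by
      rw [← Real.log_mul (by positivity) (by positivity)]
      exact Real.log_le_log hN0 hNM
    have hlNp : 0 < Real.log N := by
      have : Real.log M0 ≤ Real.log N := Real.log_le_log hM00 (by exact_mod_cast h.le)
      linarith
    have h7 : Real.log (Real.log N) - Real.log (Real.log M0) ≤ Real.log (2 * M) / Real.log M0 := by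
      rw [← Real.log_div hlNp.ne' hlM0p.ne']
      have h8 := Real.log_le_sub_one_of_pos (div_pos hlNp hlM0p)
      refine h8.trans ?_
      rw [div_sub_one hlM0p.ne']
      gcongr
      linarith
    have h9 := (abs_le.mp h3).2
    have h10 : ∑ p ∈ (Ioc M0 N).filter Nat.Prime, (1 : ℝ) / p
        ≤ (Real.log (2 * M) + (8 + cpp)) / Real.log M0 := by
      rw [add_div]; linarith
    refine h10.trans ?_
    gcongr

/-- Reciprocal sum over the `m ∈ (x / M, x]` with at most `k` prime factors exceeding `Z` and whose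
`Z`-smooth part divides `M`. -/
lemma B_le (Z k M x w : ℕ) (hM : 1 ≤ M) (hw : 2 ≤ w) (hZw : Z ≤ w) (hx : M ^ 2 * w ^ k ≤ x) :
    ∑ m ∈ Icc 1 x with (x < m * M ∧ big Z m ≤ k ∧ ∃ g r : ℕ, m = g * r ∧ g ∣ M ∧ r.Coprime M ∧
        r.primeFactorsList.length ≤ k), (1 : ℝ) / m
      ≤ A Z k x * ((Real.log (2 * M) + (8 + cpp)) / Real.log w) := by
  refine (sum_le_of_factor _ ({m ∈ Icc 1 x | big Z m ≤ k}.biUnion fun m' =>
    ((Ioc (max (x / (m' * M)) w) (x / m')).filter Nat.Prime) ×ˢ {m'}) ?_).trans ?_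
  · intro m hm
    simp only [mem_filter, mem_Icc] at hm
    obtain ⟨⟨hm1, hm2⟩, hm3, hm4, g, r, hgr, hgM, hrM, hrk⟩ := hm
    have hr0 : r ≠ 0 := by rintro rfl; simp at hgr; omega
    have hg0 : g ≠ 0 := by rintro rfl; simp at hgr; omega
    -- a prime factor of r exceeding w
    have hex : ∃ p ∈ r.primeFactorsList, w < p := by
      by_contra hcon
      push Not at hcon
      have h1 : r ≤ w ^ k := by
        have h2 := List.prod_le_pow_card r.primeFactorsList w hcon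
        rw [Nat.prod_primeFactorsList hr0] at h2
        exact h2.trans (Nat.pow_le_pow_right (by omega) hrk)
      have h3 : g ≤ M := Nat.le_of_dvd (by omega) hgM
      have h4 : m * M ≤ M ^ 2 * w ^ k := by
        calc m * M = g * r * M := by rw [hgr]
          _ ≤ M * w ^ k * M := by gcongr
          _ = M ^ 2 * w ^ k := by ring
      omega
    obtain ⟨p, hp, hwp⟩ := hex
    have hpp := Nat.prime_of_mem_primeFactorsList hp
    have hpm : p ∣ m := by
      rw [hgr]; exact Dvd.dvd.mul_left (Nat.dvd_of_mem_primeFactorsList hp) g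
    obtain ⟨m', rfl⟩ := hpm
    have hm'0 : m' ≠ 0 := by rintro rfl; simp at hm1
    have hm'1 : 1 ≤ m' := Nat.one_le_iff_ne_zero.mpr hm'0
    rw [big_prime_mul hpp (by omega) hm'0] at hm4
    refine ⟨(p, m'), ?_, rfl⟩
    simp only [mem_biUnion, mem_filter, mem_Icc, mem_product, mem_Ioc, mem_singleton]
    refine ⟨m', ⟨⟨hm'1, le_trans (Nat.le_mul_of_pos_left m' hpp.pos) hm2⟩, by omega⟩,
      ⟨⟨max_lt ?_ hwp, ?_⟩, hpp⟩, rfl⟩
    · rw [Nat.div_lt_iff_lt_mul (by positivity)]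
      calc x < p * m' * M := hm3
        _ = p * (m' * M) := by ring
    · rw [Nat.le_div_iff_mul_le (by omega)]
      exact hm2
  · have hdisj : ∀ m₁ ∈ ({m ∈ Icc 1 x | big Z m ≤ k} : Finset ℕ),
        ∀ m₂ ∈ ({m ∈ Icc 1 x | big Z m ≤ k} : Finset ℕ), m₁ ≠ m₂ →
        Disjoint (((Ioc (max (x / (m₁ * M)) w) (x / m₁)).filter Nat.Prime) ×ˢ {m₁})
          (((Ioc (max (x / (m₂ * M)) w) (x / m₂)).filter Nat.Prime) ×ˢ {m₂}) := by
      intro m₁ _ m₂ _ hne
      rw [Finset.disjoint_left]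
      rintro ⟨a, b⟩ h1 h2
      simp only [mem_product, mem_singleton] at h1 h2
      exact hne (h1.2.symm.trans h2.2)
    rw [sum_biUnion hdisj]
    unfold A
    rw [sum_mul]
    refine sum_le_sum fun m' hm' => ?_
    rw [sum_product]
    simp only [sum_singleton]
    rw [← sum_mul, mul_comm]
    simp only [mem_filter, mem_Icc] at hm'
    gcongr
    refine inner_sum_le M w (x / m') _ hM hw (le_max_right _ _) ?_
    rw [Nat.div_div_eq_div_mul]
    exact le_max_left _ _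

/-- Reciprocal sum over multiples. -/
lemma sum_multiples (q x : ℕ) (hq : 0 < q) :
    ∑ m ∈ Icc 1 x with q ∣ m, (1 : ℝ) / m ≤ 1 / q * (1 + Real.log x) := by
  refine (sum_le_of_factor _ ({q} ×ˢ Icc 1 x) ?_).trans ?_
  · intro m hm
    simp only [mem_filter, mem_Icc] at hm
    obtain ⟨⟨h1, h2⟩, m', rfl⟩ := hm
    refine ⟨(q, m'), ?_, rfl⟩
    have : m' ≠ 0 := by rintro rfl; simp at h1
    simp only [mem_product, mem_singleton, mem_Icc, true_and]
    exact ⟨Nat.one_le_iff_ne_zero.mpr this, le_trans (Nat.le_mul_of_pos_left m' hq) h2⟩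
  · rw [sum_product, sum_singleton]
    simp only
    rw [← mul_sum]
    gcongr
    have h1 := harmonic_le_one_add_log x
    rw [harmonic_eq_sum_Icc] at h1
    push_cast at h1
    simpa using h1

lemma powers_le (Z E x : ℕ) :
    ∑ m ∈ Icc 1 x with (∃ p, p.Prime ∧ p ≤ Z ∧ p ^ (E + 1) ∣ m), (1 : ℝ) / m
      ≤ Z * (1 / 2 ^ (E + 1) * (1 + Real.log x)) := by
  have hlog : 0 ≤ Real.log x := Real.log_natCast_nonneg x
  have hc : (0 : ℝ) ≤ 1 / 2 ^ (E + 1) * (1 + Real.log x) := by positivity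
  have h1 : ∑ m ∈ Icc 1 x with (∃ p, p.Prime ∧ p ≤ Z ∧ p ^ (E + 1) ∣ m), (1 : ℝ) / m
      ≤ ∑ m ∈ (Icc 2 Z).biUnion (fun p => {m ∈ Icc 1 x | p ^ (E + 1) ∣ m}), (1 : ℝ) / m := by
    refine sum_le_sum_of_subset_of_nonneg ?_ fun _ _ _ => by positivity
    intro m hm
    rw [mem_filter] at hm
    obtain ⟨h1, p, hp, hpZ, hpm⟩ := hm
    rw [mem_biUnion]
    exact ⟨p, mem_Icc.mpr ⟨hp.two_le, hpZ⟩, mem_filter.mpr ⟨h1, hpm⟩⟩
  have h2 : ∑ m ∈ (Icc 2 Z).biUnion (fun p => {m ∈ Icc 1 x | p ^ (E + 1) ∣ m}), (1 : ℝ) / m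
      ≤ ∑ p ∈ Icc 2 Z, ∑ m ∈ Icc 1 x with p ^ (E + 1) ∣ m, (1 : ℝ) / m :=
    sum_biUnion_le_sum' _ _ _ (fun _ => by positivity)
  have h3 : ∑ p ∈ Icc 2 Z, ∑ m ∈ Icc 1 x with p ^ (E + 1) ∣ m, (1 : ℝ) / m
      ≤ ∑ p ∈ Icc 2 Z, (1 / 2 ^ (E + 1) * (1 + Real.log x)) := by
    refine sum_le_sum fun p hp => ?_
    have hp2 : 2 ≤ p := (mem_Icc.mp hp).1
    have hpos : 0 < p ^ (E + 1) := Nat.pow_pos (by omega)
    refine (sum_multiples (p ^ (E + 1)) x hpos).trans ?_
    have h3 : (2 : ℝ) ^ (E + 1) ≤ ((p ^ (E + 1) : ℕ) : ℝ) := by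
      have : 2 ^ (E + 1) ≤ p ^ (E + 1) := Nat.pow_le_pow_left hp2 _
      exact_mod_cast this
    have h4 : 1 / ((p ^ (E + 1) : ℕ) : ℝ) ≤ 1 / 2 ^ (E + 1) :=
      one_div_le_one_div_of_le (by positivity) h3
    exact mul_le_mul_of_nonneg_right h4 (by linarith)
  have h4 : ∑ p ∈ Icc 2 Z, (1 / 2 ^ (E + 1) * (1 + Real.log x)) ≤ Z * (1 / 2 ^ (E + 1) * (1 + Real.log x)) := by
    rw [sum_const, nsmul_eq_mul]
    have h5 : #(Icc 2 Z) ≤ Z := by rw [Nat.card_Icc]; omega
    have h6 : ((#(Icc 2 Z) : ℕ) : ℝ) ≤ Z := by exact_mod_cast h5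
    exact mul_le_mul_of_nonneg_right h6 hc
  exact h1.trans (h2.trans (h3.trans h4))

end Pool.Agent.E25
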