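import Mathlib
import Pool.Agent.E25.Cover
import Pool.Agent.E25.Dens
import Pool.Agent.E25.NT

/-!
# Counting the integers hit by late classes
-/

namespace Pool.Agent.E25

open Finset
open scoped Classical

variable {n b : ℕ → ℕ}

lemma big_mul (Z : ℕ) {g r : ℕ} (hg : g ≠ 0) (hr : r ≠ 0) : big Z (g * r) = big Z g + big Z r := by
  unfold big
  have h1 := (Nat.perm_primeFactorsList_mul hg hr).filter (fun q => decide (Z < q))
  rw [h1.length_eq, List.filter_append, List.length_append]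

lemma card_divisors_le (r : ℕ) (hr : r ≠ 0) : #r.divisors ≤ 2 ^ r.primeFactorsList.length := by
  induction r using Nat.recOnMul with
  | zero => exact absurd rfl hr
  | one => simp
  | prime p hp =>
    rw [Nat.primeFactorsList_prime hp, hp.divisors]
    simpa using card_le_two
  | mul a b ha hb =>
    have ha0 : a ≠ 0 := left_ne_zero_of_mul hr
    have hb0 : b ≠ 0 := right_ne_zero_of_mul hr
    rw [(Nat.perm_primeFactorsList_mul ha0 hb0).length_eq, List.length_append, pow_add, Nat.divisors_mul]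
    exact card_mul_le.trans (Nat.mul_le_mul (ha ha0) (hb hb0))

lemma class_count (q c x : ℕ) (hq : 0 < q) :
    (#{m ∈ Icc 1 x | m % q = c % q} : ℝ) ≤ (x : ℝ) / q + 1 := by
  have h1 : #{m ∈ Icc 1 x | m % q = c % q} ≤ x / q + 1 := by
    have h2 : #{m ∈ Icc 1 x | m % q = c % q} ≤ #{m ∈ range (x + 1) | m % q = c % q} := by
      refine card_le_card (filter_subset_filter _ fun m hm => ?_)
      simp only [mem_Icc, mem_range] at hm ⊢; omega
    have h3 := Nat.count_modEq_card (x + 1) hq c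
    rw [Nat.count_eq_card_filter_range] at h3
    have h4 : #{m ∈ range (x + 1) | m % q = c % q}
        = (x + 1) / q + if c % q < (x + 1) % q then 1 else 0 := by
      rw [← h3]
      congr 1
    rw [h4] at h2
    refine h2.trans ?_
    -- number of classes representatives below x + 1
    by_cases h5 : q ∣ x + 1
    · have h6 : (x + 1) % q = 0 := Nat.mod_eq_zero_of_dvd h5
      rw [h6]
      simp only [Nat.not_lt_zero, if_false, add_zero]
      rw [Nat.succ_div_of_dvd h5]
    · rw [Nat.succ_div_of_not_dvd h5]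
      split_ifs <;> omega
  have h2 : ((x / q : ℕ) : ℝ) ≤ (x : ℝ) / q := Nat.cast_div_le
  have h3 : (#{m ∈ Icc 1 x | m % q = c % q} : ℝ) ≤ ((x / q + 1 : ℕ) : ℝ) := by exact_mod_cast h1
  push_cast at h3
  linarith

lemma class_count' (q c x : ℕ) (hq : 0 < q) (hqx : q ≤ x) :
    (#{m ∈ Icc 1 x | m % q = c % q} : ℝ) ≤ 2 * x * (1 / q) := by
  have h1 := class_count q c x hq
  have hq' : (0 : ℝ) < q := by exact_mod_cast hq
  have h2 : (1 : ℝ) ≤ (x : ℝ) / q := by
    rw [le_div_iff₀ hq']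
    simpa using (by exact_mod_cast hqx : (q : ℝ) ≤ x)
  have h3 : 2 * (x : ℝ) * (1 / q) = (x : ℝ) / q + (x : ℝ) / q := by ring
  rw [h3]
  linarith

lemma pair_count (M d c e x : ℕ) (hM : 0 < M) (hd : 0 < d) (hco : M.Coprime d) (hx : M * d ≤ x) :
    (#{m ∈ Icc 1 x | m % M = c ∧ m % d = e} : ℝ) ≤ 2 * x * (1 / (M * d)) := by
  by_cases hne : ({m ∈ Icc 1 x | m % M = c ∧ m % d = e} : Finset ℕ).Nonempty
  · obtain ⟨m0, hm0⟩ := hne
    rw [mem_filter] at hm0
    obtain ⟨_, hc, he⟩ := hm0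
    have h1 : #{m ∈ Icc 1 x | m % M = c ∧ m % d = e} ≤ #{m ∈ Icc 1 x | m % (M * d) = m0 % (M * d)} := by
      refine card_le_card fun m hm => ?_
      rw [mem_filter] at hm ⊢
      refine ⟨hm.1, ?_⟩
      exact (Nat.modEq_and_modEq_iff_modEq_mul hco).mp ⟨hm.2.1.trans hc.symm, hm.2.2.trans he.symm⟩
    have h2 := class_count' (M * d) m0 x (by positivity) hx
    have h3 : (#{m ∈ Icc 1 x | m % M = c ∧ m % d = e} : ℝ)
        ≤ (#{m ∈ Icc 1 x | m % (M * d) = m0 % (M * d)} : ℝ) := by exact_mod_cast h1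
    push_cast at h2
    exact h3.trans h2
  · rw [not_nonempty_iff_eq_empty] at hne
    rw [hne]
    simp only [card_empty, Nat.cast_zero]
    positivity

/-- Splitting off the part of a modulus that is composed of small primes. -/
lemma split_modulus {M Z E m k : ℕ} (hm : m ≠ 0) (hM : 0 < M) (hE : 1 ≤ E)
    (hMZ : ∀ p, p.Prime → p ∣ M → p ≤ Z) (hME : ∀ p, p.Prime → p ≤ Z → p ^ E ∣ M)
    (hpow : ¬ ∃ p, p.Prime ∧ p ≤ Z ∧ p ^ (E + 1) ∣ m) (hk : big Z m ≤ k) :
    m = m.gcd M * (m / m.gcd M) ∧ (m / m.gcd M).Coprime M ∧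
      (m / m.gcd M).primeFactorsList.length ≤ k ∧ m / m.gcd M ≠ 0 := by
  set g := m.gcd M with hg
  have hg0 : 0 < g := Nat.gcd_pos_of_pos_right m hM
  have hgm : g ∣ m := Nat.gcd_dvd_left m M
  have h1 : m = g * (m / g) := (Nat.mul_div_cancel' hgm).symm
  have hr0 : m / g ≠ 0 := by
    intro h; rw [h] at h1; simp at h1; exact hm h1
  have hco : (m / g).Coprime M := by
    rw [Nat.coprime_iff_gcd_eq_one] 
    by_contra hcon
    obtain ⟨p, hp, hpg⟩ := Nat.exists_prime_and_dvd hcon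
    have hpr : p ∣ m / g := hpg.trans (Nat.gcd_dvd_left _ _)
    have hpM : p ∣ M := hpg.trans (Nat.gcd_dvd_right _ _)
    have hpZ := hMZ p hp hpM
    have hv : m.factorization p ≤ E := by
      by_contra hcon2
      push Not at hcon2
      exact hpow ⟨p, hp, hpZ, (pow_dvd_pow p hcon2).trans (Nat.ordProj_dvd m p)⟩
    have h2 : p ^ (m.factorization p) ∣ g :=
      Nat.dvd_gcd (Nat.ordProj_dvd m p) ((pow_dvd_pow p hv).trans (hME p hp hpZ))
    have h3 : p ^ (m.factorization p) * p ∣ g * (m / g) := Nat.mul_dvd_mul h2 hpr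
    rw [← h1, ← pow_succ] at h3
    exact Nat.pow_succ_factorization_not_dvd hm hp h3
  refine ⟨h1, hco, ?_, hr0⟩
  have hall : ∀ p ∈ (m / g).primeFactorsList, Z < p := by
    intro p hp
    by_contra hcon
    push Not at hcon
    have hpp := Nat.prime_of_mem_primeFactorsList hp
    have hpr := Nat.dvd_of_mem_primeFactorsList hp
    have hpM : p ∣ M := (dvd_pow_self p (by omega)).trans (hME p hpp hcon)
    have := Nat.dvd_gcd hpr hpM
    rw [Nat.coprime_iff_gcd_eq_one.mp hco] at this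
    exact hpp.one_lt.ne' (Nat.dvd_one.mp this)
  have h4 : big Z (m / g) = (m / g).primeFactorsList.length := by
    unfold big
    rw [List.filter_eq_self.mpr]
    intro p hp
    simpa using hall p hp
  have h5 : big Z m = big Z g + big Z (m / g) := by
    conv_lhs => rw [h1]
    exact big_mul Z hg0.ne' hr0
  omega

/-- The count of integers hit by the good classes outside the early classes. -/
lemma good_count (hpos : ∀ i, 0 < n i) (k I M x : ℕ) (hI : I ≤ x + 1) (hM : 0 < M)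
    (hN : ∀ i < I, n i ∣ M) (S : Finset ℕ) (hS : S ⊆ range (x + 1)) (g r : ℕ → ℕ)
    (hgr : ∀ i ∈ S, n i = g i * r i) (hgM : ∀ i ∈ S, g i ∣ M) (hco : ∀ i ∈ S, (r i).Coprime M)
    (hk : ∀ i ∈ S, (r i).primeFactorsList.length ≤ k) (hx : ∀ i ∈ S, n i * M ≤ x) :
    (#{m ∈ Icc 1 x | ¬ Hit n b (range I) m ∧ Hit n b S m} : ℝ)
      ≤ 2 * (2 ^ k) ^ 2 * (dens n b (range (x + 1)) - dens n b (range I)) * x := by
  have hr0 : ∀ i ∈ S, 0 < r i := by
    intro i hi
    have := hpos i
    rw [hgr i hi] at this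
    exact Nat.pos_of_mul_pos_left this
  have hg0 : ∀ i ∈ S, 0 < g i := by
    intro i hi
    have := hpos i
    rw [hgr i hi] at this
    exact Nat.pos_of_mul_pos_right this
  set R := ∏ i ∈ S, r i with hR
  have hRpos : 0 < R := prod_pos hr0
  have hcoMR : M.Coprime R := Nat.Coprime.prod_right fun i hi => (hco i hi).symm
  have hM' : (0 : ℝ) < M := by exact_mod_cast hM
  have hR' : (0 : ℝ) < R := by exact_mod_cast hRpos
  -- the classes active at ρ
  set Sρ : ℕ → Finset ℕ := fun ρ => {i ∈ S | ρ % g i = b i % g i} with hSρ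
  set cnt : ℕ → ℕ := fun ρ => #{y ∈ range R | ∃ i ∈ Sρ ρ, y % r i = b i % r i} with hcnt
  -- covers
  have hcov : ∀ ρ, ∃ G : Finset (ℕ × ℕ), (∀ q ∈ G, ∃ i ∈ Sρ ρ, q.1 ∣ r i ∧ q.2 = b i % q.1) ∧
      (∀ i ∈ Sρ ρ, ∃ q ∈ G, q.1 ∣ r i ∧ b i % q.1 = q.2) ∧
      ∑ q ∈ G, (1 : ℝ) / q.1 ≤ ((2 ^ k : ℕ) : ℝ) ^ 2 * ((cnt ρ : ℝ) / R) := by
    intro ρ
    refine cover (Sρ ρ) r b (2 ^ k) (fun i hi => hr0 i (mem_of_mem_filter i hi)) ?_ R hRpos
      (fun i hi => dvd_prod_of_mem r (mem_of_mem_filter i hi))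
    intro i hi
    have hi' := mem_of_mem_filter i hi
    exact (card_divisors_le (r i) (hr0 i hi').ne').trans (Nat.pow_le_pow_right (by norm_num) (hk i hi'))
  choose G hG1 hG2 hG3 using hcov
  -- step 1: fibre over residues mod M
  have step1 : (#{m ∈ Icc 1 x | ¬ Hit n b (range I) m ∧ Hit n b S m} : ℝ)
      ≤ ∑ ρ ∈ range M with ¬ Hit n b (range I) ρ, 2 * x * (1 / M) * ∑ q ∈ G ρ, (1 : ℝ) / q.1 := by
    have h1 : ({m ∈ Icc 1 x | ¬ Hit n b (range I) m ∧ Hit n b S m} : Finset ℕ)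
        ⊆ ({ρ ∈ range M | ¬ Hit n b (range I) ρ} : Finset ℕ).biUnion fun ρ =>
          (G ρ).biUnion fun q => {m ∈ Icc 1 x | m % M = ρ ∧ m % q.1 = q.2} := by
      intro m hm
      rw [mem_filter] at hm
      obtain ⟨hm1, hm2, i, hi, hmi⟩ := hm
      rw [mem_biUnion]
      refine ⟨m % M, ?_, ?_⟩
      · rw [mem_filter]
        refine ⟨mem_range.mpr (Nat.mod_lt _ hM), ?_⟩
        rwa [hit_congr (N := M) (m' := m) (fun i hi => hN i (mem_range.mp hi)) (by simp)]
      · have hiρ : i ∈ Sρ (m % M) := by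
          rw [hSρ, mem_filter]
          refine ⟨hi, ?_⟩
          rw [Nat.mod_mod_of_dvd _ (hgM i hi)]
          exact Nat.ModEq.of_dvd ⟨r i, hgr i hi⟩ hmi
        obtain ⟨q, hq, hq1, hq2⟩ := hG2 (m % M) i hiρ
        rw [mem_biUnion]
        refine ⟨q, hq, ?_⟩
        rw [mem_filter]
        refine ⟨hm1, rfl, ?_⟩
        rw [← hq2]
        exact Nat.ModEq.of_dvd (hq1.trans ⟨g i, by rw [hgr i hi, mul_comm]⟩) hmi
    have h2 : (#{m ∈ Icc 1 x | ¬ Hit n b (range I) m ∧ Hit n b S m} : ℝ)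
        ≤ ∑ ρ ∈ range M with ¬ Hit n b (range I) ρ, ∑ q ∈ G ρ,
          (#{m ∈ Icc 1 x | m % M = ρ ∧ m % q.1 = q.2} : ℝ) := by
      have h3 := (card_le_card h1).trans card_biUnion_le
      have h4 : ∑ ρ ∈ range M with ¬ Hit n b (range I) ρ,
          #((G ρ).biUnion fun q => {m ∈ Icc 1 x | m % M = ρ ∧ m % q.1 = q.2})
          ≤ ∑ ρ ∈ range M with ¬ Hit n b (range I) ρ, ∑ q ∈ G ρ,
            #{m ∈ Icc 1 x | m % M = ρ ∧ m % q.1 = q.2} :=
        sum_le_sum fun ρ _ => card_biUnion_le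
      exact_mod_cast h3.trans h4
    refine h2.trans (sum_le_sum fun ρ _ => ?_)
    rw [mul_sum]
    refine sum_le_sum fun q hq => ?_
    obtain ⟨i, hi, hq1, hq2⟩ := hG1 ρ q hq
    have hi' := mem_of_mem_filter i hi
    have hq0 : 0 < q.1 := Nat.pos_of_dvd_of_pos hq1 (hr0 i hi')
    have hqM : M.Coprime q.1 := ((hco i hi').symm).coprime_dvd_right hq1
    have hle : M * q.1 ≤ x := by
      calc M * q.1 ≤ M * n i := by
            apply Nat.mul_le_mul_left
            exact Nat.le_of_dvd (hpos i) (hq1.trans ⟨g i, by rw [hgr i hi', mul_comm]⟩)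
        _ = n i * M := mul_comm _ _
        _ ≤ x := hx i hi'
    refine (pair_count M q.1 ρ q.2 x hM hq0 hqM hle).trans (le_of_eq ?_)
    have : (q.1 : ℝ) ≠ 0 := by exact_mod_cast hq0.ne'
    field_simp
  -- step 2: use the cover bound
  have step2 : ∑ ρ ∈ range M with ¬ Hit n b (range I) ρ, 2 * x * (1 / M) * ∑ q ∈ G ρ, (1 : ℝ) / q.1
      ≤ 2 * x * (1 / M) * ((2 ^ k) ^ 2 * (1 / R)) *
        ∑ ρ ∈ range M with ¬ Hit n b (range I) ρ, (cnt ρ : ℝ) := by
    rw [mul_sum]
    refine sum_le_sum fun ρ _ => ?_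
    have h1 := hG3 ρ
    push_cast at h1
    calc 2 * x * (1 / M) * ∑ q ∈ G ρ, (1 : ℝ) / q.1
        ≤ 2 * x * (1 / M) * ((2 ^ k) ^ 2 * ((cnt ρ : ℝ) / R)) := by
          refine mul_le_mul_of_nonneg_left h1 (by positivity)
      _ = _ := by ring
  -- step 3: CRT
  have step3 : (∑ ρ ∈ range M with ¬ Hit n b (range I) ρ, (cnt ρ : ℝ))
      ≤ (#{w ∈ range (M * R) | ¬ Hit n b (range I) w ∧ Hit n b S w} : ℝ) := by
    have h1 : ∑ ρ ∈ range M with ¬ Hit n b (range I) ρ, cnt ρ
        = #(({ρ ∈ range M | ¬ Hit n b (range I) ρ} : Finset ℕ).sigma fun ρ =>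
          {y ∈ range R | ∃ i ∈ Sρ ρ, y % r i = b i % r i}) := by
      rw [card_sigma]
    have h2 : #(({ρ ∈ range M | ¬ Hit n b (range I) ρ} : Finset ℕ).sigma fun ρ =>
          {y ∈ range R | ∃ i ∈ Sρ ρ, y % r i = b i % r i})
        ≤ #(({w ∈ range (M * R) | ¬ Hit n b (range I) w ∧ Hit n b S w} : Finset ℕ).image
          fun w => (⟨w % M, w % R⟩ : Σ _ : ℕ, ℕ)) := by
      refine card_le_card ?_
      rintro ⟨ρ, y⟩ hρy
      rw [mem_sigma, mem_filter, mem_filter] at hρy
      obtain ⟨⟨hρ, hρI⟩, hy, i, hi, hyi⟩ := hρy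
      simp only [mem_range] at hρ hy
      obtain ⟨w, hw1, hw2, hw3⟩ : ∃ w : ℕ, w % M = ρ ∧ w % R = y ∧ w < M * R := by
        refine ⟨Nat.chineseRemainder hcoMR ρ y, ?_, ?_,
          Nat.chineseRemainder_lt_mul hcoMR ρ y hM.ne' hRpos.ne'⟩
        · have : (Nat.chineseRemainder hcoMR ρ y : ℕ) % M = ρ % M := (Nat.chineseRemainder hcoMR ρ y).2.1
          rw [this, Nat.mod_eq_of_lt hρ]
        · have : (Nat.chineseRemainder hcoMR ρ y : ℕ) % R = y % R := (Nat.chineseRemainder hcoMR ρ y).2.2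
          rw [this, Nat.mod_eq_of_lt hy]
      rw [mem_image]
      refine ⟨w, ?_, ?_⟩
      · rw [mem_filter]
        refine ⟨mem_range.mpr hw3, ?_, ?_⟩
        · rwa [hit_congr (N := M) (m' := ρ) (fun i hi => hN i (mem_range.mp hi))
            (by rw [hw1, Nat.mod_eq_of_lt hρ])]
        · rw [hSρ, mem_filter] at hi
          obtain ⟨hiS, hig⟩ := hi
          refine ⟨i, hiS, ?_⟩
          have e1 : (w : ℕ) ≡ b i [MOD g i] := by
            have : (w : ℕ) % g i = ρ % g i := by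
              rw [← hw1, Nat.mod_mod_of_dvd _ (hgM i hiS)]
            exact this.trans hig
          have e2 : (w : ℕ) ≡ b i [MOD r i] := by
            have : (w : ℕ) % r i = y % r i := by
              rw [← hw2, Nat.mod_mod_of_dvd _ (dvd_prod_of_mem r hiS)]
            exact this.trans hyi
          have hcgr : (g i).Coprime (r i) := ((hco i hiS).symm).coprime_dvd_left (hgM i hiS)
          rw [hgr i hiS]
          exact (Nat.modEq_and_modEq_iff_modEq_mul hcgr).mp ⟨e1, e2⟩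
      · simp only [hw1, hw2]
    have h3 := h1.le.trans (h2.trans card_image_le)
    exact_mod_cast h3
  -- step 4: density
  have step4 : (#{w ∈ range (M * R) | ¬ Hit n b (range I) w ∧ Hit n b S w} : ℝ)
      ≤ M * R * (dens n b (range (x + 1)) - dens n b (range I)) := by
    have hd1 : ∀ i ∈ range I, n i ∣ M * R := fun i hi => (hN i (mem_range.mp hi)).mul_right R
    have hd2 : ∀ i ∈ range I ∪ S, n i ∣ M * R := by
      intro i hi
      rcases mem_union.mp hi with h | h
      · exact hd1 i h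
      · rw [hgr i h]
        exact Nat.mul_dvd_mul (hgM i h) (dvd_prod_of_mem r h)
    have e1 := dens_eq (b := b) hpos hd1
    have e2 := dens_eq (b := b) hpos hd2
    have e3 : #{w ∈ range (M * R) | ¬ Hit n b (range I) w ∧ Hit n b S w}
        + #{w ∈ range (M * R) | Hit n b (range I) w}
        ≤ #{w ∈ range (M * R) | Hit n b (range I ∪ S) w} := by
      rw [← card_union_of_disjoint]
      · refine card_le_card fun w hw => ?_
        rw [mem_union, mem_filter, mem_filter] at hw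
        rw [mem_filter]
        rcases hw with hw | hw
        · exact ⟨hw.1, hit_mono subset_union_right hw.2.2⟩
        · exact ⟨hw.1, hit_mono subset_union_left hw.2⟩
      · rw [Finset.disjoint_left]
        intro w hw hw'
        rw [mem_filter] at hw hw'
        exact hw.2.1 hw'.2
    have e4 : (#{w ∈ range (M * R) | ¬ Hit n b (range I) w ∧ Hit n b S w} : ℝ)
        + (#{w ∈ range (M * R) | Hit n b (range I) w} : ℝ)
        ≤ (#{w ∈ range (M * R) | Hit n b (range I ∪ S) w} : ℝ) := by exact_mod_cast e3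
    have e5 : dens n b (range I ∪ S) ≤ dens n b (range (x + 1)) := by
      apply dens_mono hpos
      apply union_subset _ hS
      intro i hi
      simp only [mem_range] at hi ⊢; omega
    have e1' : (#{w ∈ range (M * R) | Hit n b (range I) w} : ℝ) = (M * R : ℕ) * dens n b (range I) := by
      convert e1 using 3
    have e2' : (#{w ∈ range (M * R) | Hit n b (range I ∪ S) w} : ℝ)
        = (M * R : ℕ) * dens n b (range I ∪ S) := by
      convert e2 using 3
    push_cast at e1' e2'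
    have hMR : (0 : ℝ) < M * R := by positivity
    nlinarith
  have hc : (0 : ℝ) ≤ 2 * x * (1 / M) * ((2 ^ k) ^ 2 * (1 / R)) := by positivity
  calc (#{m ∈ Icc 1 x | ¬ Hit n b (range I) m ∧ Hit n b S m} : ℝ)
      ≤ 2 * x * (1 / M) * ((2 ^ k) ^ 2 * (1 / R)) *
        ∑ ρ ∈ range M with ¬ Hit n b (range I) ρ, (cnt ρ : ℝ) := step1.trans step2
    _ ≤ 2 * x * (1 / M) * ((2 ^ k) ^ 2 * (1 / R)) *
        (M * R * (dens n b (range (x + 1)) - dens n b (range I))) :=
        mul_le_mul_of_nonneg_left (step3.trans step4) hc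
    _ = _ := by field_simp

end Pool.Agent.E25
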