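import Mathlib
import Pool.Agent.E25.Count

/-!
# The upper bound for the number of integers hit only by late classes
-/

namespace Pool.Agent.E25

open Finset
open scoped Classical
open Pool.Agent.E456 (S1 cpp)

variable {n b : ℕ → ℕ}

/-- Error term. -/
noncomputable def err (k Z E w M x : ℕ) : ℝ :=
  2 * (Z * (1 / 2 ^ (E + 1) * (1 + Real.log x)) + A Z k x * ((Real.log (2 * M) + (8 + cpp)) / Real.log w))

theorem tail_count (hmono : StrictMono n) (hpos : ∀ i, 0 < n i) (k I Z E w M x : ℕ) (hI : I ≤ x + 1)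
    (hM : 0 < M) (hN : ∀ i < I, n i ∣ M) (hE : 1 ≤ E)
    (hMZ : ∀ p, p.Prime → p ∣ M → p ≤ Z) (hME : ∀ p, p.Prime → p ≤ Z → p ^ E ∣ M)
    (X : Set ℕ) (hbig : ∀ i, i ∉ X → n i ≤ x → big Z (n i) ≤ k) (hw : 2 ≤ w) (hZw : Z ≤ w)
    (hx : M ^ 2 * w ^ k ≤ x) :
    (#{m ∈ Icc 1 x | ¬ Hit n b (range I) m ∧ ∃ i, n i ≤ m ∧ m % n i = b i % n i} : ℝ)
      ≤ 2 * (2 ^ k) ^ 2 * (dens n b (range (x + 1)) - dens n b (range I)) * x
        + err k Z E w M x * x + 2 * x * ∑ i ∈ range (x + 1) with (n i ≤ x ∧ i ∈ X ∧ I ≤ i), (1 : ℝ) / n i := by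
  set S : Finset ℕ := {i ∈ range (x + 1) | n i ≤ x ∧ i ∉ X} with hS
  set SX : Finset ℕ := {i ∈ range (x + 1) | n i ≤ x ∧ i ∈ X ∧ I ≤ i} with hSX
  set P1 : ℕ → Prop := fun m => ∃ p, p.Prime ∧ p ≤ Z ∧ p ^ (E + 1) ∣ m with hP1
  set Sg : Finset ℕ := {i ∈ S | ¬ P1 (n i) ∧ n i * M ≤ x} with hSg
  -- covering the set
  have hcov : ({m ∈ Icc 1 x | ¬ Hit n b (range I) m ∧ ∃ i, n i ≤ m ∧ m % n i = b i % n i} : Finset ℕ)
      ⊆ ({m ∈ Icc 1 x | ¬ Hit n b (range I) m ∧ Hit n b Sg m} : Finset ℕ)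
        ∪ ((S \ Sg).biUnion (fun i => {m ∈ Icc 1 x | m % n i = b i % n i})
        ∪ SX.biUnion (fun i => {m ∈ Icc 1 x | m % n i = b i % n i})) := by
    intro m hm
    rw [mem_filter] at hm
    obtain ⟨hm1, hm2, i, hi1, hi2⟩ := hm
    have hmx := (mem_Icc.mp hm1).2
    have hix : i < x + 1 := by
      have := hmono.id_le i
      simp only [id_eq] at this
      omega
    rw [mem_union, mem_union]
    by_cases hX : i ∈ X
    · right; right
      rw [mem_biUnion]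
      refine ⟨i, mem_filter.mpr ⟨mem_range.mpr hix, by omega, hX, ?_⟩, mem_filter.mpr ⟨hm1, hi2⟩⟩
      by_contra hcon
      exact hm2 ⟨i, mem_range.mpr (by omega), hi2⟩
    have hiS : i ∈ S := by
      rw [hS, mem_filter, mem_range]
      exact ⟨hix, by omega, hX⟩
    by_cases hg : i ∈ Sg
    · left
      rw [mem_filter]
      exact ⟨hm1, hm2, i, hg, hi2⟩
    · right; left
      rw [mem_biUnion]
      exact ⟨i, mem_sdiff.mpr ⟨hiS, hg⟩, mem_filter.mpr ⟨hm1, hi2⟩⟩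
  have hcard : (#{m ∈ Icc 1 x | ¬ Hit n b (range I) m ∧ ∃ i, n i ≤ m ∧ m % n i = b i % n i} : ℝ)
      ≤ (#{m ∈ Icc 1 x | ¬ Hit n b (range I) m ∧ Hit n b Sg m} : ℝ)
        + ∑ i ∈ S \ Sg, (#{m ∈ Icc 1 x | m % n i = b i % n i} : ℝ)
        + ∑ i ∈ SX, (#{m ∈ Icc 1 x | m % n i = b i % n i} : ℝ) := by
    have h1 := (card_le_card hcov).trans ((card_union_le _ _).trans
      (Nat.add_le_add_left ((card_union_le _ _).trans (Nat.add_le_add card_biUnion_le card_biUnion_le)) _))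
    rw [← add_assoc] at h1
    exact_mod_cast h1
  refine hcard.trans (add_le_add (add_le_add ?_ ?_) ?_)
  · -- good classes
    have hprop : ∀ i ∈ Sg, n i = (n i).gcd M * (n i / (n i).gcd M) ∧ (n i / (n i).gcd M).Coprime M ∧
        (n i / (n i).gcd M).primeFactorsList.length ≤ k ∧ n i / (n i).gcd M ≠ 0 := by
      intro i hi
      rw [hSg, mem_filter] at hi
      obtain ⟨hiS, hi1, _⟩ := hi
      rw [hS, mem_filter] at hiS
      exact split_modulus (hpos i).ne' hM hE hMZ hME hi1 (hbig i hiS.2.2 hiS.2.1)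
    refine good_count hpos k I M x hI hM hN Sg ?_ (fun i => (n i).gcd M) (fun i => n i / (n i).gcd M)
      (fun i hi => (hprop i hi).1) (fun i _ => Nat.gcd_dvd_right _ _) (fun i hi => (hprop i hi).2.1)
      (fun i hi => (hprop i hi).2.2.1) ?_
    · exact (filter_subset _ _).trans (filter_subset _ _)
    · intro i hi
      exact (mem_filter.mp hi).2.2
  · -- bad classes
    have h1 : ∑ i ∈ S \ Sg, (#{m ∈ Icc 1 x | m % n i = b i % n i} : ℝ)
        ≤ ∑ i ∈ S \ Sg, 2 * x * ((1 : ℝ) / n i) := by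
      refine sum_le_sum fun i hi => ?_
      have hiS := (mem_sdiff.mp hi).1
      rw [hS, mem_filter] at hiS
      exact class_count' (n i) (b i) x (hpos i) hiS.2.1
    refine h1.trans ?_
    rw [← mul_sum]
    have h2 : ∑ i ∈ S \ Sg, (1 : ℝ) / n i = ∑ m ∈ (S \ Sg).image n, (1 : ℝ) / m := by
      rw [sum_image (fun a _ a' _ h => hmono.injective h)]
    rw [h2]
    have h3 : (S \ Sg).image n ⊆ ({m ∈ Icc 1 x | P1 m} : Finset ℕ) ∪
        ({m ∈ Icc 1 x | x < m * M ∧ big Z m ≤ k ∧ ∃ g r : ℕ, m = g * r ∧ g ∣ M ∧ r.Coprime M ∧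
          r.primeFactorsList.length ≤ k} : Finset ℕ) := by
      intro m hm
      obtain ⟨i, hi, rfl⟩ := mem_image.mp hm
      rw [mem_sdiff] at hi
      obtain ⟨hiS, hig⟩ := hi
      have hiX := (mem_filter.mp hiS).2.2
      have hiS' := (mem_filter.mp hiS).2.1
      have hmem : n i ∈ Icc 1 x := mem_Icc.mpr ⟨hpos i, hiS'⟩
      rw [mem_union]
      by_cases hp : P1 (n i)
      · left; exact mem_filter.mpr ⟨hmem, hp⟩
      · right
        have hx' : x < n i * M := by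
          by_contra hcon
          push Not at hcon
          exact hig (mem_filter.mpr ⟨hiS, hp, hcon⟩)
        have hb := hbig i hiX hiS'
        obtain ⟨e1, e2, e3, _⟩ := split_modulus (hpos i).ne' hM hE hMZ hME hp hb
        exact mem_filter.mpr ⟨hmem, hx', hb, _, _, e1, Nat.gcd_dvd_right _ _, e2, e3⟩
    have h4 : ∑ m ∈ (S \ Sg).image n, (1 : ℝ) / m
        ≤ Z * (1 / 2 ^ (E + 1) * (1 + Real.log x))
          + A Z k x * ((Real.log (2 * M) + (8 + cpp)) / Real.log w) := by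
      calc ∑ m ∈ (S \ Sg).image n, (1 : ℝ) / m
          ≤ ∑ m ∈ ({m ∈ Icc 1 x | P1 m} : Finset ℕ) ∪
            ({m ∈ Icc 1 x | x < m * M ∧ big Z m ≤ k ∧ ∃ g r : ℕ, m = g * r ∧ g ∣ M ∧ r.Coprime M ∧
              r.primeFactorsList.length ≤ k} : Finset ℕ), (1 : ℝ) / m :=
            sum_le_sum_of_subset_of_nonneg h3 fun _ _ _ => by positivity
        _ ≤ ∑ m ∈ Icc 1 x with P1 m, (1 : ℝ) / m +
            ∑ m ∈ Icc 1 x with (x < m * M ∧ big Z m ≤ k ∧ ∃ g r : ℕ, m = g * r ∧ g ∣ M ∧ r.Coprime M ∧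
              r.primeFactorsList.length ≤ k), (1 : ℝ) / m := by
            have h5 := sum_union_inter (s₁ := ({m ∈ Icc 1 x | P1 m} : Finset ℕ))
              (s₂ := ({m ∈ Icc 1 x | x < m * M ∧ big Z m ≤ k ∧ ∃ g r : ℕ, m = g * r ∧ g ∣ M ∧ r.Coprime M ∧
              r.primeFactorsList.length ≤ k} : Finset ℕ)) (f := fun m : ℕ => (1 : ℝ) / m)
            have h6 : 0 ≤ ∑ m ∈ ({m ∈ Icc 1 x | P1 m} : Finset ℕ) ∩
              ({m ∈ Icc 1 x | x < m * M ∧ big Z m ≤ k ∧ ∃ g r : ℕ, m = g * r ∧ g ∣ M ∧ r.Coprime M ∧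
              r.primeFactorsList.length ≤ k} : Finset ℕ), (1 : ℝ) / m :=
              sum_nonneg fun _ _ => by positivity
            linarith
        _ ≤ _ := add_le_add (powers_le Z E x) (B_le Z k M x w hM hw hZw hx)
    unfold err
    calc 2 * (x : ℝ) * ∑ m ∈ (S \ Sg).image n, (1 : ℝ) / m
        ≤ 2 * x * (Z * (1 / 2 ^ (E + 1) * (1 + Real.log x))
          + A Z k x * ((Real.log (2 * M) + (8 + cpp)) / Real.log w)) :=
          mul_le_mul_of_nonneg_left h4 (by positivity)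
      _ = _ := by ring
  · rw [mul_sum]
    refine sum_le_sum fun i hi => ?_
    rw [hSX, mem_filter] at hi
    exact class_count' (n i) (b i) x (hpos i) hi.2.1

end Pool.Agent.E25
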