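import Mathlib
import Pool.Agent.E25.Tail

/-!
# The error term tends to zero
-/

namespace Pool.Agent.E25

open Filter Topology Real
open Pool.Agent.E456 (S1 cpp mertens2 cpp_nonneg)

/-- Threshold for small primes. -/
noncomputable def zz (θ : ℝ) (x : ℕ) : ℕ := ⌊(Real.log x) ^ θ⌋₊
/-- Exponent. -/
noncomputable def ee (θ : ℝ) (x : ℕ) : ℕ := ⌊(Real.log x) ^ ((1 - θ) / 2)⌋₊
/-- Modulus carrying the small primes. -/
noncomputable def mm (θ : ℝ) (x : ℕ) : ℕ := (zz θ x).factorial ^ (ee θ x)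
/-- A power of `x`. -/
noncomputable def ww (k x : ℕ) : ℕ := ⌊(x : ℝ) ^ ((1 : ℝ) / (2 * k + 2))⌋₊

lemma log_atTop : Tendsto (fun x : ℕ => Real.log (x : ℝ)) atTop atTop :=
  Real.tendsto_log_atTop.comp tendsto_natCast_atTop_atTop

lemma loglog_atTop : Tendsto (fun x : ℕ => Real.log (Real.log (x : ℝ))) atTop atTop :=
  Real.tendsto_log_atTop.comp log_atTop

lemma zz_atTop {θ : ℝ} (h0 : 0 < θ) : Tendsto (zz θ) atTop atTop :=
  tendsto_nat_floor_atTop.comp ((tendsto_rpow_atTop h0).comp log_atTop)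

lemma ee_atTop {θ : ℝ} (h1 : θ < 1) : Tendsto (ee θ) atTop atTop :=
  tendsto_nat_floor_atTop.comp ((tendsto_rpow_atTop (by linarith)).comp log_atTop)

lemma ww_atTop (k : ℕ) : Tendsto (ww k) atTop atTop :=
  tendsto_nat_floor_atTop.comp ((tendsto_rpow_atTop (by positivity)).comp tendsto_natCast_atTop_atTop)

lemma zz_le {θ : ℝ} (x : ℕ) (h1 : θ < 1) (hL : 1 ≤ Real.log x) : (zz θ x : ℝ) ≤ Real.log x := by
  have h2 : (zz θ x : ℝ) ≤ (Real.log x) ^ θ := Nat.floor_le (by positivity)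
  refine h2.trans ?_
  calc (Real.log x) ^ θ ≤ (Real.log x) ^ (1 : ℝ) := Real.rpow_le_rpow_of_exponent_le hL h1.le
    _ = Real.log x := Real.rpow_one _

lemma log_mm_le {θ : ℝ} (x : ℕ) (h1 : θ < 1) (hL : 1 ≤ Real.log x) :
    Real.log (mm θ x) ≤ (Real.log x) ^ ((1 + θ) / 2) * Real.log (Real.log x) := by
  have hL0 : 0 < Real.log x := by linarith
  have hll : 0 ≤ Real.log (Real.log x) := Real.log_nonneg hL
  have h2 : (zz θ x : ℝ) ≤ (Real.log x) ^ θ := Nat.floor_le (by positivity)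
  have h3 : (ee θ x : ℝ) ≤ (Real.log x) ^ ((1 - θ) / 2) := Nat.floor_le (by positivity)
  have h4 := zz_le x h1 hL
  unfold mm
  push_cast
  rw [Real.log_pow]
  have h5 : Real.log ((zz θ x).factorial : ℝ) ≤ (Real.log x) ^ θ * Real.log (Real.log x) := by
    have h6 : (((zz θ x).factorial : ℕ) : ℝ) ≤ ((zz θ x : ℕ) : ℝ) ^ (zz θ x) := by
      exact_mod_cast Nat.factorial_le_pow (zz θ x)
    have h7 : Real.log ((zz θ x).factorial : ℝ) ≤ (zz θ x) * Real.log (zz θ x) := by
      rw [← Real.log_pow]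
      exact Real.log_le_log (by exact_mod_cast Nat.factorial_pos _) h6
    refine h7.trans ?_
    have h8 : Real.log (zz θ x) ≤ Real.log (Real.log x) := by
      rcases Nat.eq_zero_or_pos (zz θ x) with h | h
      · rw [h]; simpa using hll
      · exact Real.log_le_log (by exact_mod_cast h) h4
    have h9 : (0 : ℝ) ≤ zz θ x := by positivity
    calc (zz θ x : ℝ) * Real.log (zz θ x) ≤ zz θ x * Real.log (Real.log x) := by gcongr
      _ ≤ (Real.log x) ^ θ * Real.log (Real.log x) := by gcongr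
  have h10 : (Real.log x) ^ ((1 + θ) / 2) = (Real.log x) ^ ((1 - θ) / 2) * (Real.log x) ^ θ := by
    rw [← Real.rpow_add hL0]; congr 1; ring
  rw [h10]
  have h11 : 0 ≤ Real.log ((zz θ x).factorial : ℝ) := Real.log_natCast_nonneg _
  calc (ee θ x : ℝ) * Real.log ((zz θ x).factorial : ℝ)
      ≤ (Real.log x) ^ ((1 - θ) / 2) * ((Real.log x) ^ θ * Real.log (Real.log x)) := by gcongr
    _ = _ := by ring

lemma pow_log_lim (m : ℕ) {γ : ℝ} (hγ : 0 < γ) :
    Tendsto (fun x : ℕ => (Real.log (Real.log x)) ^ m * (Real.log x) ^ (-γ)) atTop (𝓝 0) := by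
  have h1 := (isLittleO_log_rpow_rpow_atTop (m : ℝ) hγ).tendsto_div_nhds_zero
  have h2 := h1.comp log_atTop
  refine h2.congr' ?_
  filter_upwards [log_atTop.eventually_gt_atTop 0] with x hx
  simp only [Function.comp]
  rw [Real.rpow_natCast, Real.rpow_neg hx.le, div_eq_mul_inv]

/-- Side conditions. -/
lemma side {θ : ℝ} (h0 : 0 < θ) (h1 : θ < 1) (k : ℕ) :
    ∀ᶠ x : ℕ in atTop, 1 ≤ ee θ x ∧ 2 ≤ ww k x ∧ zz θ x ≤ ww k x ∧ (mm θ x) ^ 2 * (ww k x) ^ k ≤ x ∧
      2 ≤ zz θ x ∧ Real.log x / (4 * k + 4) ≤ Real.log (ww k x) := by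
  have hc : (0 : ℝ) < 1 / (2 * k + 2) := by positivity
  -- log x ≤ x^c - 1 eventually
  have e1 : ∀ᶠ x : ℕ in atTop, Real.log x ≤ (x : ℝ) ^ ((1 : ℝ) / (2 * k + 2)) - 1 := by
    have h2 := (isLittleO_log_rpow_atTop hc).bound (show (0 : ℝ) < 1 / 2 by norm_num)
    have h3 := tendsto_natCast_atTop_atTop (R := ℝ) |>.eventually h2
    have h4 := ((tendsto_rpow_atTop hc).comp (tendsto_natCast_atTop_atTop (R := ℝ))).eventually_ge_atTop 2
    filter_upwards [h3, h4, log_atTop.eventually_ge_atTop 0] with x hx hx2 hx3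
    simp only [Function.comp] at hx2
    rw [Real.norm_of_nonneg hx3, Real.norm_of_nonneg (by positivity)] at hx
    linarith
  -- log x ^ β * loglog x ≤ log x / 4
  have e2 : ∀ᶠ x : ℕ in atTop, (Real.log x) ^ ((1 + θ) / 2) * Real.log (Real.log x) ≤ Real.log x / 4 := by
    have h2 := pow_log_lim 1 (γ := (1 - θ) / 2) (by linarith)
    have h3 := h2.eventually_lt_const (show (0 : ℝ) < 1 / 4 by norm_num)
    filter_upwards [h3, log_atTop.eventually_gt_atTop 0] with x hx hx2
    have h4 : (Real.log x) ^ ((1 + θ) / 2) = Real.log x * (Real.log x) ^ (-((1 - θ) / 2)) := by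
      conv_rhs => rw [← Real.rpow_one (Real.log x)]
      rw [← Real.rpow_mul hx2.le, ← Real.rpow_add hx2]; congr 1; ring
    rw [h4]
    rw [pow_one] at hx
    nlinarith
  filter_upwards [e1, e2, (ee_atTop h1).eventually_ge_atTop 1, (ww_atTop k).eventually_ge_atTop 2,
    (zz_atTop h0).eventually_ge_atTop 2, log_atTop.eventually_ge_atTop 1, eventually_ge_atTop 1,
    log_atTop.eventually_ge_atTop (Real.log 2 * (4 * k + 4))] with x hx1 hx2 hx3 hx4 hx5 hx6 hx7 hx8
  have hx0 : (0 : ℝ) < x := by exact_mod_cast hx7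
  have hwle : (ww k x : ℝ) ≤ (x : ℝ) ^ ((1 : ℝ) / (2 * k + 2)) := Nat.floor_le (by positivity)
  have hwge : (x : ℝ) ^ ((1 : ℝ) / (2 * k + 2)) < ww k x + 1 := Nat.lt_floor_add_one _
  have hmpos : (0 : ℝ) < mm θ x := by
    unfold mm; exact_mod_cast Nat.pow_pos (Nat.factorial_pos _)
  refine ⟨hx3, hx4, ?_, ?_, hx5, ?_⟩
  · have h2 := zz_le x h1 hx6
    have h3 : (zz θ x : ℝ) < ww k x := by linarith
    exact_mod_cast h3.le
  · have h2 : Real.log (mm θ x) ≤ Real.log x / 4 := (log_mm_le x h1 hx6).trans hx2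
    have h3 : ((mm θ x : ℕ) : ℝ) ^ 2 ≤ (x : ℝ) ^ ((1 : ℝ) / 2) := by
      rw [← Real.log_le_log_iff (by positivity) (by positivity), Real.log_pow, Real.log_rpow hx0]
      push_cast; linarith
    have h4 : ((ww k x : ℕ) : ℝ) ^ k ≤ (x : ℝ) ^ ((1 : ℝ) / 2) := by
      calc ((ww k x : ℕ) : ℝ) ^ k ≤ ((x : ℝ) ^ ((1 : ℝ) / (2 * k + 2))) ^ k := by gcongr
        _ = (x : ℝ) ^ ((1 : ℝ) / (2 * k + 2) * k) := by rw [Real.rpow_mul hx0.le, Real.rpow_natCast]
        _ ≤ (x : ℝ) ^ ((1 : ℝ) / 2) := by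
          apply Real.rpow_le_rpow_of_exponent_le (by exact_mod_cast hx7)
          rw [div_mul_eq_mul_div, one_mul, div_le_div_iff₀ (by positivity) (by norm_num)]
          linarith
    have h5 : ((mm θ x : ℕ) : ℝ) ^ 2 * ((ww k x : ℕ) : ℝ) ^ k ≤ x := by
      calc ((mm θ x : ℕ) : ℝ) ^ 2 * ((ww k x : ℕ) : ℝ) ^ k
          ≤ (x : ℝ) ^ ((1 : ℝ) / 2) * (x : ℝ) ^ ((1 : ℝ) / 2) := by gcongr
        _ = x := by rw [← Real.rpow_add hx0]; norm_num
    exact_mod_cast h5
  · have h2 : (2 : ℝ) ≤ ww k x := by exact_mod_cast hx4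
    have h3 : (x : ℝ) ^ ((1 : ℝ) / (2 * k + 2)) ≤ 2 * ww k x := by linarith
    have h4 : (1 : ℝ) / (2 * k + 2) * Real.log x ≤ Real.log 2 + Real.log (ww k x) := by
      rw [← Real.log_rpow hx0, ← Real.log_mul (by norm_num) (by positivity)]
      exact Real.log_le_log (by positivity) h3
    have h5 : Real.log 2 ≤ Real.log x / (4 * k + 4) := by
      rw [le_div_iff₀ (by positivity)]; exact hx8
    have h6 : (1 : ℝ) / (2 * k + 2) * Real.log x = Real.log x / (4 * k + 4) + Real.log x / (4 * k + 4) := by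
      field_simp; ring
    linarith

lemma term1 {θ : ℝ} (h0 : 0 < θ) (h1 : θ < 1) :
    Tendsto (fun x : ℕ => (zz θ x : ℝ) * (1 / 2 ^ (ee θ x + 1) * (1 + Real.log x))) atTop (𝓝 0) := by
  have hε : 0 < (1 - θ) / 2 := by linarith
  have h2 := tendsto_rpow_mul_exp_neg_mul_atTop_nhds_zero (2 / ((1 - θ) / 2)) (Real.log 2)
    (Real.log_pos (by norm_num))
  have h3 := h2.comp ((tendsto_rpow_atTop hε).comp log_atTop)
  have h4 := h3.const_mul 2
  rw [mul_zero] at h4
  refine squeeze_zero' ?_ ?_ h4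
  · filter_upwards [log_atTop.eventually_ge_atTop 1] with x hx
    positivity
  · filter_upwards [log_atTop.eventually_ge_atTop 1] with x hx
    simp only [Function.comp]
    have hL0 : 0 < Real.log x := by linarith
    have e1 : ((Real.log x) ^ ((1 - θ) / 2)) ^ (2 / ((1 - θ) / 2)) = (Real.log x) ^ (2 : ℕ) := by
      rw [← Real.rpow_mul hL0.le, mul_div_cancel₀ _ hε.ne']
      exact_mod_cast Real.rpow_natCast (Real.log x) 2
    rw [e1]
    have e2 : (1 : ℝ) / 2 ^ (ee θ x + 1) ≤ Real.exp (-Real.log 2 * (Real.log x) ^ ((1 - θ) / 2)) := by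
      have e3 : (2 : ℝ) ^ (ee θ x + 1) = Real.exp (Real.log 2 * (ee θ x + 1)) := by
        rw [Real.exp_mul, Real.exp_log (by norm_num)]
        exact_mod_cast (Real.rpow_natCast 2 (ee θ x + 1)).symm
      rw [e3, one_div, ← Real.exp_neg]
      apply Real.exp_le_exp.mpr
      have e4 : (Real.log x) ^ ((1 - θ) / 2) < ee θ x + 1 := Nat.lt_floor_add_one _
      have e5 : 0 < Real.log 2 := Real.log_pos (by norm_num)
      nlinarith
    have e6 := zz_le x h1 hx
    calc (zz θ x : ℝ) * (1 / 2 ^ (ee θ x + 1) * (1 + Real.log x))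
        ≤ Real.log x * (Real.exp (-Real.log 2 * (Real.log x) ^ ((1 - θ) / 2)) * (Real.log x + Real.log x)) := by
          gcongr
      _ = _ := by ring

lemma term2 {θ : ℝ} (h0 : 0 < θ) (h1 : θ < 1) (k : ℕ) :
    Tendsto (fun x : ℕ => A (zz θ x) k x * ((Real.log (2 * mm θ x) + (8 + cpp)) / Real.log (ww k x)))
      atTop (𝓝 0) := by
  obtain ⟨C, hC0, hC⟩ := mertens2
  have hcpp := cpp_nonneg
  have h2 := pow_log_lim (k + 3) (γ := (1 - θ) / 2) (by linarith)
  have h3 := h2.const_mul (Real.exp (2 * C) * 2 ^ (k + 1) * (4 * k + 4))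
  rw [mul_zero] at h3
  refine squeeze_zero' ?_ ?_ h3
  · filter_upwards [eventually_ge_atTop 1] with x hx
    have hmpos : (1 : ℝ) ≤ mm θ x := by
      unfold mm; exact_mod_cast Nat.one_le_iff_ne_zero.mpr (pow_ne_zero _ (Nat.factorial_ne_zero _))
    have h4 : 0 ≤ Real.log (2 * mm θ x) := Real.log_nonneg (by linarith)
    have h5 : 0 ≤ Real.log (ww k x) := Real.log_natCast_nonneg _
    have h6 := A_nonneg (zz θ x) k x
    positivity
  · filter_upwards [side h0 h1 k, log_atTop.eventually_ge_atTop 1,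
      loglog_atTop.eventually_ge_atTop (1 + C + (Real.log 2 + (8 + cpp))), eventually_ge_atTop 2]
      with x hside hx hll hx2
    obtain ⟨s1, s2, s3, s4, s5, s6⟩ := hside
    have hL0 : 0 < Real.log x := by linarith
    have hlog2 : 0 < Real.log 2 := Real.log_pos (by norm_num)
    have hll1 : 1 ≤ Real.log (Real.log x) := by linarith
    set lam := Real.log (Real.log x) with hlam
    -- bound on A
    have hA : A (zz θ x) k x ≤ Real.exp (2 * C) * lam ^ 2 * (2 * lam) ^ k := by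
      have a1 := A_le (zz θ x) k x
      have a2 := A_zero_le (zz θ x) x
      have a3 := (abs_le.mp (hC (zz θ x) s5)).2
      have a4 := (abs_le.mp (hC x hx2)).2
      have hS : 0 ≤ S1 x := Finset.sum_nonneg fun _ _ => by positivity
      have hZ2 : (2 : ℝ) ≤ zz θ x := by exact_mod_cast s5
      have hlZ : 0 < Real.log (zz θ x) := Real.log_pos (by linarith)
      have hlZ' : Real.log (zz θ x) ≤ lam := Real.log_le_log (by linarith) (zz_le x h1 hx)
      have a5 : Real.exp (2 * S1 (zz θ x)) ≤ Real.exp (2 * C) * lam ^ 2 := by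
        calc Real.exp (2 * S1 (zz θ x)) ≤ Real.exp (2 * C + 2 * Real.log (Real.log (zz θ x))) :=
              Real.exp_le_exp.mpr (by linarith)
          _ = Real.exp (2 * C) * (Real.log (zz θ x)) ^ 2 := by
              rw [Real.exp_add, two_mul (Real.log (Real.log (zz θ x))), Real.exp_add,
                Real.exp_log hlZ]; ring
          _ ≤ Real.exp (2 * C) * lam ^ 2 := by gcongr
      have a6 : 1 + S1 x ≤ 2 * lam := by linarith
      calc A (zz θ x) k x ≤ A (zz θ x) 0 x * (1 + S1 x) ^ k := a1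
        _ ≤ (Real.exp (2 * C) * lam ^ 2) * (2 * lam) ^ k := by
          apply mul_le_mul (a2.trans a5) (by gcongr) (by positivity) (by positivity)
    -- bound on the logarithm
    have hmpos : (1 : ℝ) ≤ mm θ x := by
      unfold mm; exact_mod_cast Nat.one_le_iff_ne_zero.mpr (pow_ne_zero _ (Nat.factorial_ne_zero _))
    have hLβ : 1 ≤ (Real.log x) ^ ((1 + θ) / 2) := Real.one_le_rpow hx (by linarith)
    have hlogM : Real.log (2 * mm θ x) + (8 + cpp) ≤ 2 * ((Real.log x) ^ ((1 + θ) / 2) * lam) := by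
      rw [Real.log_mul (by norm_num) (by linarith)]
      have b1 := log_mm_le x h1 hx
      rw [← hlam] at b1
      have b2 : Real.log 2 + (8 + cpp) ≤ (Real.log x) ^ ((1 + θ) / 2) * lam := by
        have : lam ≤ (Real.log x) ^ ((1 + θ) / 2) * lam := by
          apply le_mul_of_one_le_left (by linarith) hLβ
        linarith
      linarith
    have hnum : 0 ≤ Real.log (2 * mm θ x) + (8 + cpp) := by
      have := Real.log_nonneg (by linarith : (1 : ℝ) ≤ 2 * mm θ x)
      linarith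
    have hden : 0 < Real.log x / (4 * k + 4) := by positivity
    have hpow : (Real.log x) ^ ((1 + θ) / 2) / Real.log x = (Real.log x) ^ (-((1 - θ) / 2)) := by
      rw [div_eq_iff hL0.ne']
      conv_rhs => rw [← Real.rpow_one (Real.log x)]
      rw [← Real.rpow_mul hL0.le, ← Real.rpow_add hL0]; congr 1; ring
    calc A (zz θ x) k x * ((Real.log (2 * mm θ x) + (8 + cpp)) / Real.log (ww k x))
        ≤ (Real.exp (2 * C) * lam ^ 2 * (2 * lam) ^ k) *
          ((2 * ((Real.log x) ^ ((1 + θ) / 2) * lam)) / (Real.log x / (4 * k + 4))) := by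
          apply mul_le_mul hA _ _ (by positivity)
          · gcongr
          · exact div_nonneg hnum (by linarith)
      _ = Real.exp (2 * C) * 2 ^ (k + 1) * (4 * k + 4) *
          (lam ^ (k + 3) * ((Real.log x) ^ ((1 + θ) / 2) / Real.log x)) := by
          rw [mul_pow]
          field_simp
          ring
      _ = _ := by rw [hpow]

/-- The error term tends to zero. -/
theorem err_tendsto {θ : ℝ} (h0 : 0 < θ) (h1 : θ < 1) (k : ℕ) :
    Tendsto (fun x : ℕ => err k (zz θ x) (ee θ x) (ww k x) (mm θ x) x) atTop (𝓝 0) := by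
  have h := ((term1 h0 h1).add (term2 h0 h1 k)).const_mul 2
  rw [add_zero, mul_zero] at h
  exact h

end Pool.Agent.E25
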