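import Mathlib

/-!
# Natural density implies logarithmic density
-/

namespace Pool.Agent.E25

open Finset Filter Topology Asymptotics

open scoped Classical in
/-- If a set has natural density `L`, it has logarithmic density `L`. -/
theorem logdens_of_natdens (P : Set ℕ) (L : ℝ)
    (h : Tendsto (fun x : ℕ => (#{m ∈ Icc 1 x | m ∈ P} : ℝ) / x) atTop (𝓝 L)) :
    Tendsto (fun x : ℕ => (∑ m ∈ Icc 1 x, P.indicator (fun m : ℕ => (1 : ℝ) / (m : ℝ)) m)
      / Real.log (x : ℝ)) atTop (𝓝 L) := by
  set c : ℕ → ℝ := fun x => (#{m ∈ Icc 1 x | m ∈ P} : ℝ) with hc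
  have hIcc : ∀ x : ℕ, Icc 1 (x + 1) = insert (x + 1) (Icc 1 x) := by
    intro x; ext y; simp only [mem_Icc, mem_insert]; omega
  have hnot : ∀ x : ℕ, (x + 1) ∉ Icc 1 x := by intro x; simp
  have hcsucc : ∀ x : ℕ, c (x + 1) = c x + (if (x + 1) ∈ P then 1 else 0) := by
    intro x
    simp only [hc]
    rw [hIcc, filter_insert]
    split_ifs with hP
    · rw [card_insert_of_notMem (by simp)]; push_cast; ring
    · simp
  -- Abel summation
  have habel : ∀ x : ℕ, ∑ m ∈ Icc 1 x, P.indicator (fun m : ℕ => (1 : ℝ) / (m : ℝ)) m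
      = ∑ i ∈ range x, c (i + 1) / (i + 1) * (1 / ((i : ℝ) + 2)) + c x / ((x : ℝ) + 1) := by
    intro x
    induction x with
    | zero => simp [hc]
    | succ x ih =>
      rw [hIcc, sum_insert (hnot x), ih, sum_range_succ, hcsucc]
      have h1 : (0 : ℝ) < (x : ℝ) + 1 := by positivity
      have h2 : (0 : ℝ) < (x : ℝ) + 2 := by positivity
      have h3 : P.indicator (fun m : ℕ => (1 : ℝ) / (m : ℝ)) (x + 1)
          = (if (x + 1) ∈ P then (1 : ℝ) else 0) / ((x : ℝ) + 1) := by
        by_cases hP : (x + 1) ∈ P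
        · rw [Set.indicator_of_mem hP, if_pos hP]; push_cast; ring
        · rw [Set.indicator_of_notMem hP, if_neg hP]; simp
      rw [h3]
      push_cast
      have h4 : (x : ℝ) + 1 + 1 = x + 2 := by ring
      rw [h4]
      field_simp
      ring
  have hc0 : ∀ x, 0 ≤ c x := fun x => by simp only [hc]; positivity
  have hcx : ∀ x, c x ≤ x := by
    intro x
    simp only [hc]
    have := card_filter_le (Icc 1 x) (fun m => m ∈ P)
    rw [Nat.card_Icc] at this
    exact_mod_cast (by omega : #{m ∈ Icc 1 x | m ∈ P} ≤ x)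
  -- harmonic sums
  set H : ℕ → ℝ := fun x => ∑ i ∈ range x, (1 / ((i : ℝ) + 2)) with hH
  have hHlog : Tendsto (fun x : ℕ => H x - Real.log x) atTop (𝓝 (Real.eulerMascheroniConstant - 1)) := by
    have h1 := Real.tendsto_harmonic_sub_log
    have h2 : ∀ x : ℕ, H x = (harmonic x : ℝ) - 1 + 1 / ((x : ℝ) + 1) := by
      intro x
      induction x with
      | zero => simp [hH]
      | succ x ih =>
        have e : H (x + 1) = H x + 1 / ((x : ℝ) + 2) := by
          simp only [hH]; rw [sum_range_succ]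
        rw [e, ih, harmonic_succ]
        push_cast
        have h4 : (x : ℝ) + 1 + 1 = x + 2 := by ring
        rw [h4]
        ring
    have h3 : Tendsto (fun x : ℕ => 1 / ((x : ℝ) + 1)) atTop (𝓝 0) := tendsto_one_div_add_atTop_nhds_zero_nat
    have h4 := (h1.sub_const 1).add h3
    rw [add_zero] at h4
    refine h4.congr fun x => ?_
    rw [h2]; ring
  have hlog : Tendsto (fun x : ℕ => Real.log (x : ℝ)) atTop atTop :=
    Real.tendsto_log_atTop.comp tendsto_natCast_atTop_atTop
  have hHratio : Tendsto (fun x : ℕ => H x / Real.log x) atTop (𝓝 1) := by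
    have h1 : Tendsto (fun x : ℕ => (H x - Real.log x) / Real.log x) atTop (𝓝 0) :=
      hHlog.div_atTop hlog
    have h2 := h1.add_const 1
    rw [zero_add] at h2
    refine h2.congr' ?_
    filter_upwards [hlog.eventually_gt_atTop 0] with x hx
    field_simp
    ring
  have hHtop : Tendsto H atTop atTop := by
    have h1 := hHlog.add_atTop hlog
    refine h1.congr fun x => by ring
  -- the error terms
  have herr : Tendsto (fun i : ℕ => c (i + 1) / ((i : ℝ) + 1) - L) atTop (𝓝 0) := by
    have h1 := (tendsto_add_atTop_iff_nat 1).mpr h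
    have h2 := h1.sub_const L
    rw [sub_self] at h2
    refine h2.congr fun i => ?_
    push_cast
    rfl
  have hlo : (fun i : ℕ => (c (i + 1) / ((i : ℝ) + 1) - L) * (1 / ((i : ℝ) + 2)))
      =o[atTop] (fun i : ℕ => 1 / ((i : ℝ) + 2)) := by
    have h1 : (fun i : ℕ => c (i + 1) / ((i : ℝ) + 1) - L) =o[atTop] (fun _ : ℕ => (1 : ℝ)) :=
      (isLittleO_one_iff ℝ).mpr herr
    have h2 := h1.mul_isBigO (isBigO_refl (fun i : ℕ => 1 / ((i : ℝ) + 2)) atTop)
    simpa using h2
  have hsum := hlo.sum_range (fun i => by positivity) hHtop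
  have hsum' : Tendsto (fun x : ℕ => (∑ i ∈ range x, (c (i + 1) / ((i : ℝ) + 1) - L) * (1 / ((i : ℝ) + 2)))
      / H x) atTop (𝓝 0) := hsum.tendsto_div_nhds_zero
  have hmain : Tendsto (fun x : ℕ => (∑ i ∈ range x, c (i + 1) / ((i : ℝ) + 1) * (1 / ((i : ℝ) + 2)))
      / Real.log x) atTop (𝓝 L) := by
    have h1 := (hsum'.add_const L).mul hHratio
    rw [zero_add, mul_one] at h1
    refine h1.congr' ?_
    filter_upwards [hHtop.eventually_gt_atTop 0, hlog.eventually_gt_atTop 0] with x hx hx2
    have e : ∑ i ∈ range x, (c (i + 1) / ((i : ℝ) + 1) - L) * (1 / ((i : ℝ) + 2))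
        = ∑ i ∈ range x, c (i + 1) / ((i : ℝ) + 1) * (1 / ((i : ℝ) + 2)) - L * H x := by
      simp only [hH]
      rw [mul_sum, ← sum_sub_distrib]
      exact sum_congr rfl fun i _ => by ring
    rw [e]
    field_simp
    ring
  have hlast : Tendsto (fun x : ℕ => c x / ((x : ℝ) + 1) / Real.log x) atTop (𝓝 0) := by
    have h1 : Tendsto (fun x : ℕ => (1 : ℝ) / Real.log x) atTop (𝓝 0) := by
      simpa using (tendsto_const_nhds (x := (1 : ℝ))).div_atTop hlog
    refine squeeze_zero' ?_ ?_ h1
    · filter_upwards [hlog.eventually_gt_atTop 0] with x hx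
      have := hc0 x
      positivity
    · filter_upwards [hlog.eventually_gt_atTop 0] with x hx
      have h2 : c x / ((x : ℝ) + 1) ≤ 1 := by
        rw [div_le_one (by positivity)]
        linarith [hcx x]
      gcongr
  have hfin := hmain.add hlast
  rw [add_zero] at hfin
  refine hfin.congr fun x => ?_
  rw [habel, add_div]

end Pool.Agent.E25
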