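import Mathlib
import Pool.Agent.E25.Asym
import Pool.Agent.E25.LogDens

/-!
# Natural density for moduli with boundedly many large prime factors
-/

namespace Pool.Agent.E25

open Finset Filter Topology
open scoped Classical

variable {n b : ℕ → ℕ}

/-- The density of the union of all classes. -/
noncomputable def densInf (n b : ℕ → ℕ) : ℝ := ⨆ I : ℕ, dens n b (range I)

lemma dens_range_mono (hpos : ∀ i, 0 < n i) : Monotone fun I : ℕ => dens n b (range I) :=
  fun _ _ h => dens_mono hpos (range_mono h)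

lemma dens_bdd (hpos : ∀ i, 0 < n i) : BddAbove (Set.range fun I : ℕ => dens n b (range I)) :=
  ⟨1, by rintro _ ⟨I, rfl⟩; exact dens_le_one hpos _⟩

lemma dens_le_inf (hpos : ∀ i, 0 < n i) (I : ℕ) : dens n b (range I) ≤ densInf n b :=
  le_ciSup (dens_bdd hpos) I

lemma dens_tendsto (hpos : ∀ i, 0 < n i) :
    Tendsto (fun I : ℕ => dens n b (range I)) atTop (𝓝 (densInf n b)) :=
  tendsto_atTop_ciSup (dens_range_mono hpos) (dens_bdd hpos)

lemma dvd_mm {θ : ℝ} (I : ℕ) (x : ℕ) (hpos : ∀ i, 0 < n i) (hE : 1 ≤ ee θ x)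
    (hZ : ∏ i ∈ range I, n i ≤ zz θ x) : ∀ i < I, n i ∣ mm θ x := by
  intro i hi
  have h1 : n i ∣ ∏ i ∈ range I, n i := dvd_prod_of_mem n (mem_range.mpr hi)
  have h2 : ∏ i ∈ range I, n i ∣ (zz θ x).factorial :=
    Nat.dvd_factorial (prod_pos fun i _ => hpos i) hZ
  exact (h1.trans h2).trans (dvd_pow_self _ (by omega))

/-- The set of hit integers has natural density `densInf`. -/
theorem hit_density {θ : ℝ} (h0 : 0 < θ) (h1 : θ < 1) (k : ℕ) (hmono : StrictMono n)
    (hpos : ∀ i, 0 < n i)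
    (X : Set ℕ) (hX : Summable (X.indicator fun i => (1 : ℝ) / n i))
    (hk : ∀ i, i ∉ X →
      ((n i).primeFactorsList.filter (fun p : ℕ => decide ((Real.log (n i)) ^ θ < (p : ℝ)))).length ≤ k) :
    Tendsto (fun x : ℕ => (#{m ∈ Icc 1 x | ∃ i, n i ≤ m ∧ m % n i = b i % n i} : ℝ) / x) atTop
      (𝓝 (densInf n b)) := by
  rw [Metric.tendsto_atTop]
  intro δ hδ
  -- choose I
  obtain ⟨I, hI, hIX⟩ : ∃ I, densInf n b - dens n b (range I) < δ / (8 * (2 ^ k) ^ 2) ∧
      ∀ x : ℕ, ∑ i ∈ range (x + 1) with (n i ≤ x ∧ i ∈ X ∧ I ≤ i), (1 : ℝ) / n i ≤ δ / 16 := by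
    have h2 := (dens_tendsto (n := n) (b := b) hpos).eventually (lt_mem_nhds
      (show densInf n b - δ / (8 * (2 ^ k) ^ 2) < densInf n b by
        have : 0 < δ / (8 * (2 ^ k) ^ 2) := by positivity
        linarith))
    obtain ⟨s, hs⟩ := summable_iff_vanishing_norm.mp hX (δ / 16) (by positivity)
    obtain ⟨N, hN⟩ : ∃ N, s ⊆ range N := s.exists_nat_subset_range
    obtain ⟨I, hI, hIN⟩ := (h2.and (eventually_ge_atTop N)).exists
    refine ⟨I, by linarith, fun x => ?_⟩
    have h3 := hs ({i ∈ range (x + 1) | n i ≤ x ∧ i ∈ X ∧ I ≤ i}) (by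
      rw [Finset.disjoint_left]
      intro i hi his
      have h4 := (mem_filter.mp hi).2.2.2
      have h5 := mem_range.mp (hN his)
      omega)
    have h4 : ∑ i ∈ range (x + 1) with (n i ≤ x ∧ i ∈ X ∧ I ≤ i), (1 : ℝ) / n i
        = ∑ i ∈ range (x + 1) with (n i ≤ x ∧ i ∈ X ∧ I ≤ i), X.indicator (fun i => (1 : ℝ) / n i) i := by
      refine sum_congr rfl fun i hi => ?_
      rw [Set.indicator_of_mem (mem_filter.mp hi).2.2.1]
    rw [h4]
    exact (le_abs_self _).trans h3.le
  set P := ∏ i ∈ range I, n i with hP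
  have hPpos : 0 < P := prod_pos fun i _ => hpos i
  have herr := (err_tendsto h0 h1 k).eventually_lt_const (show (0 : ℝ) < δ / 8 by positivity)
  have hPx : ∀ᶠ x : ℕ in atTop, (2 * P + 1 : ℝ) / x < δ / 8 := by
    have h2 : Tendsto (fun x : ℕ => (2 * P + 1 : ℝ) / x) atTop (𝓝 0) :=
      tendsto_const_nhds.div_atTop tendsto_natCast_atTop_atTop
    exact h2.eventually_lt_const (by positivity)
  have hev : ∀ᶠ x : ℕ in atTop,
      dist ((#{m ∈ Icc 1 x | ∃ i, n i ≤ m ∧ m % n i = b i % n i} : ℝ) / x) (densInf n b) < δ := by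
    filter_upwards [herr, hPx, side h0 h1 k, (zz_atTop h0).eventually_ge_atTop P,
      eventually_ge_atTop (I + 1), log_atTop.eventually_ge_atTop 1] with x hx1 hx2 hside hx3 hx4 hx5
    obtain ⟨s1, s2, s3, s4, s5, s6⟩ := hside
    have hx0 : (0 : ℝ) < x := by exact_mod_cast (by omega : 0 < x)
    have hL0 : 0 < Real.log x := by linarith
    -- the tail bound
    have hbig : ∀ i, i ∉ X → n i ≤ x → big (zz θ x) (n i) ≤ k := by
      intro i hiX hix
      refine le_trans ?_ (hk i hiX)
      unfold big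
      refine (List.monotone_filter_right (n i).primeFactorsList ?_).length_le
      intro p hp
      simp only [decide_eq_true_eq] at hp ⊢
      have e1 : (Real.log x) ^ θ < (zz θ x : ℝ) + 1 := Nat.lt_floor_add_one _
      have e2 : ((zz θ x : ℕ) : ℝ) + 1 ≤ p := by exact_mod_cast hp
      have e3 : (Real.log (n i)) ^ θ ≤ (Real.log x) ^ θ := by
        apply Real.rpow_le_rpow (Real.log_natCast_nonneg _) _ h0.le
        exact Real.log_le_log (by exact_mod_cast hpos i) (by exact_mod_cast hix)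
      linarith
    have hmpos : 0 < mm θ x := by unfold mm; exact Nat.pow_pos (Nat.factorial_pos _)
    have htail := tail_count (b := b) hmono hpos k I (zz θ x) (ee θ x) (ww k x) (mm θ x) x (by omega)
      hmpos (dvd_mm I x hpos s1 hx3) s1 (by
        intro p hp hpM
        unfold mm at hpM
        exact (hp.dvd_factorial).mp (hp.dvd_of_dvd_pow hpM)) (by
        intro p hp hpZ
        unfold mm
        exact pow_dvd_pow_of_dvd ((hp.dvd_factorial).mpr hpZ) _) X hbig s2 s3 s4
    -- split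
    set v : ℝ := (#{m ∈ Icc 1 x | ∃ i, n i ≤ m ∧ m % n i = b i % n i} : ℝ) with hv
    have hup : v ≤ (#{m ∈ Icc 1 x | Hit n b (range I) m} : ℝ)
        + (#{m ∈ Icc 1 x | ¬ Hit n b (range I) m ∧ ∃ i, n i ≤ m ∧ m % n i = b i % n i} : ℝ) := by
      have : #{m ∈ Icc 1 x | ∃ i, n i ≤ m ∧ m % n i = b i % n i}
          ≤ #{m ∈ Icc 1 x | Hit n b (range I) m}
          + #{m ∈ Icc 1 x | ¬ Hit n b (range I) m ∧ ∃ i, n i ≤ m ∧ m % n i = b i % n i} := by
        refine (card_le_card ?_).trans (card_union_le _ _)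
        intro m hm
        rw [mem_filter] at hm
        rw [mem_union, mem_filter, mem_filter]
        by_cases h : Hit n b (range I) m
        · exact Or.inl ⟨hm.1, h⟩
        · exact Or.inr ⟨hm.1, h, hm.2⟩
      rw [hv]
      exact_mod_cast this
    have hlow : (#{m ∈ Icc 1 x | Hit n b (range I) m} : ℝ) ≤ v + P := by
      have : #{m ∈ Icc 1 x | Hit n b (range I) m}
          ≤ #{m ∈ Icc 1 x | ∃ i, n i ≤ m ∧ m % n i = b i % n i} + P := by
        have h2 : #{m ∈ Icc 1 x | Hit n b (range I) m}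
            ≤ #({m ∈ Icc 1 x | ∃ i, n i ≤ m ∧ m % n i = b i % n i} ∪ Icc 1 P) := by
          refine card_le_card fun m hm => ?_
          rw [mem_filter] at hm
          obtain ⟨hm1, i, hi, hm2⟩ := hm
          rw [mem_union]
          by_cases hmP : m ≤ P
          · right; exact mem_Icc.mpr ⟨(mem_Icc.mp hm1).1, hmP⟩
          · left
            refine mem_filter.mpr ⟨hm1, i, ?_, hm2⟩
            have : n i ≤ P := Nat.le_of_dvd hPpos (dvd_prod_of_mem n hi)
            omega
        refine h2.trans ((card_union_le _ _).trans ?_)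
        rw [Nat.card_Icc]; omega
      rw [hv]
      exact_mod_cast this
    have hc1 := count_le (b := b) hpos (S := range I) x
    have hc2 := le_count (b := b) hpos (S := range I) x
    have hc1' : (#{m ∈ Icc 1 x | Hit n b (range I) m} : ℝ) ≤ x * dens n b (range I) + P := by
      convert hc1 using 3
    have hc2' : (x : ℝ) * dens n b (range I) ≤ (#{m ∈ Icc 1 x | Hit n b (range I) m} : ℝ) + P + 1 := by
      convert hc2 using 4
    have hd1 := dens_le_inf (b := b) hpos I
    have hd2 := dens_le_inf (b := b) hpos (x + 1)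
    have hT : (0 : ℝ) < (2 ^ k) ^ 2 := by positivity
    have hI' : (densInf n b - dens n b (range I)) * (8 * (2 ^ k) ^ 2) < δ := by
      rwa [lt_div_iff₀ (by positivity)] at hI
    have hT1 : (1 : ℝ) ≤ (2 ^ k) ^ 2 := one_le_pow₀ (one_le_pow₀ (by norm_num))
    have hIsmall : densInf n b - dens n b (range I) < δ / 8 := by
      rw [lt_div_iff₀ (by norm_num)]
      nlinarith
    rw [div_lt_iff₀ hx0] at hx2
    have hP1 : (2 * P + 1 : ℝ) < δ / 8 * x := hx2
    rw [Real.dist_eq, abs_lt]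
    constructor
    · -- lower bound
      rw [neg_lt_sub_iff_lt_add, ← sub_lt_iff_lt_add', lt_div_iff₀ hx0]
      nlinarith
    · rw [sub_lt_iff_lt_add', div_lt_iff₀ hx0]
      have e1 : (dens n b (range (x + 1)) - dens n b (range I)) * (2 * (2 ^ k) ^ 2) < δ / 4 := by
        nlinarith
      have e2 := hIX x
      have e3 : 2 * (x : ℝ) * ∑ i ∈ range (x + 1) with (n i ≤ x ∧ i ∈ X ∧ I ≤ i), (1 : ℝ) / n i
          ≤ 2 * x * (δ / 16) := mul_le_mul_of_nonneg_left e2 (by positivity)
      nlinarith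
  obtain ⟨N, hN⟩ := eventually_atTop.mp hev
  exact ⟨N, hN⟩

end Pool.Agent.E25
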